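import Mathlib
import Pool.Agent.W200.IH.TC
import Pool.Agent.H391R2.T4.Gp

/-!
Semilinear invariance of the family, arbitrary characteristic.
-/

set_option autoImplicit false

namespace Pool.Agent.W200.IJ

open MvPolynomial
open Pool.Agent.H391R2 (Wr wr_mul_left wr_mul_right exists_perm_of_esymm)
open Pool.Agent.H391R2.T4 (bsT tv SolP YData EG wrAct wrAct_left wrAct_right eg_mul_left
  eg_mul_right)
open Pool.Agent.W200.IG (Dt GD Qt)
open Pool.Agent.W200.IH (Ix PP PX)

set_option linter.unusedSectionVars false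

section sem

variable {k : Type} [Field k] {G : Type} [Group G] [Fintype G]
variable (y : MvPolynomial G k) {J m : ℕ}

/-- Semi-invariance of the data under a field homomorphism. -/
structure SI (f : k →+* k) (α : MulAut G) (y : MvPolynomial G k) (d : Dt k G J) : Prop where
  hy : rename α (MvPolynomial.map f y) = y
  hl : ∀ g, f (d.l g) = d.l (α g)
  hc : f d.c = d.c
  hR : d.R.map f = d.R
  hnd : ∀ a, f (d.nd a) = d.nd a

variable {y} {d : Dt k G J} {f : k →+* k} {α : MulAut G}

theorem tv_si (h : SI f α y d) (i : Option (Fin (Fintype.card G))) :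
    rename α (MvPolynomial.map f (tv y i)) = tv y i := by
  cases i with
  | none => exact h.hy
  | some i =>
    change rename α (MvPolynomial.map f (esymm G k (i + 1))) = esymm G k (i + 1)
    rw [MvPolynomial.map_esymm]
    exact MvPolynomial.rename_esymm G k _ α.toEquiv

/-- Semilinear evaluation. -/
theorem aeval_semi {E E' : Type} [CommRing E] [Algebra k E] [CommRing E'] [Algebra k E']
    (σ : E →+* E') (hσ : ∀ a, σ (algebraMap k E a) = algebraMap k E' (f a)) (v : G → E)
    (p : MvPolynomial G k) : σ (aeval v p) = aeval (fun g => σ (v g)) (MvPolynomial.map f p) := by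
  rw [MvPolynomial.aeval_def, MvPolynomial.aeval_def, MvPolynomial.eval₂_map,
    MvPolynomial.hom_eval₂]
  congr 1
  apply RingHom.ext
  intro a
  exact hσ a

theorem paeval_semi {E E' : Type} [CommRing E] [Algebra k E] [CommRing E'] [Algebra k E']
    (σ : E →+* E') (hσ : ∀ a, σ (algebraMap k E a) = algebraMap k E' (f a)) (s : E)
    (p : Polynomial k) : σ (Polynomial.aeval s p) = Polynomial.aeval (σ s) (p.map f) := by
  rw [Polynomial.aeval_def, Polynomial.aeval_def, Polynomial.eval₂_map, Polynomial.hom_eval₂]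
  congr 1
  apply RingHom.ext
  intro a
  exact hσ a

theorem aeval_si {E E' : Type} [CommRing E] [Algebra k E] [CommRing E'] [Algebra k E']
    (h : SI f α y d) (σ : E →+* E')
    (hσ : ∀ a, σ (algebraMap k E a) = algebraMap k E' (f a)) (v : G → E) (v' : G → E')
    (hv : ∀ g, σ (v g) = v' (α g)) (i : Option (Fin (Fintype.card G))) :
    σ (aeval v (tv y i)) = aeval v' (tv y i) := by
  rw [aeval_semi σ hσ]
  nth_rewrite 2 [← tv_si h i]
  rw [aeval_rename]
  congr 1
  congr 1
  funext g
  exact hv g

theorem l_si (h : SI f α y d) (i : Option (Fin (Fintype.card G))) :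
    f (aeval d.l (tv y i)) = aeval d.l (tv y i) :=
  aeval_si h f (fun _ => rfl) d.l d.l h.hl i

theorem w_si (h : SI f α y d) : d.w.map f = d.w := by
  unfold Dt.w
  rw [Polynomial.map_prod]
  simp only [Polynomial.map_sub, Polynomial.map_X, Polynomial.map_C, h.hnd]

/-- Invariance of the tuple. -/
theorem PX_si (h : SI f α y d) {N : Type} [Field N] [Algebra k N]
    (σ : N →+* N) (hσ : ∀ a, σ (algebraMap k N a) = algebraMap k N (f a))
    (ξ : Unit ⊕ Ix G m → N) (i : Option (Fin (Fintype.card G))) :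
    (PX y d ξ i).map σ = PX y d (fun v => σ (ξ v)) i := by
  have hcomp : σ.comp (algebraMap k N) = (algebraMap k N).comp f := RingHom.ext hσ
  unfold PX PP
  rw [Polynomial.map_add, Polynomial.map_mul]
  congr 1
  · cases i with
    | none =>
      simp only [bsT, Qt, Polynomial.map_add, Polynomial.map_C, Polynomial.map_mul,
        Polynomial.map_sub, Polynomial.map_pow, Polynomial.map_X, Polynomial.map_map, hcomp, hσ,
        h.hc]
      rw [← Polynomial.map_map, h.hR]
      have h1 := l_si h none
      change f (aeval d.l y) = aeval d.l y at h1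
      rw [h1]
    | some i =>
      simp only [bsT, Polynomial.map_C, hσ]
      have h1 := l_si h (some i)
      change f (aeval d.l (esymm G k (i + 1))) = aeval d.l (esymm G k (i + 1)) at h1
      rw [h1]
  · rw [Polynomial.map_map, hcomp, ← Polynomial.map_map, w_si h]
    simp only [Polynomial.map_sum, Polynomial.map_mul, Polynomial.map_C, Polynomial.map_pow,
      Polynomial.map_X]

/-- Semilinear transport of solutions. -/
theorem SolP_si (h : SI f α y d) {N : Type} [Field N] [Algebra k N]
    (σ : N →+* N) (hσ : ∀ a, σ (algebraMap k N a) = algebraMap k N (f a))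
    (ξ : Unit ⊕ Ix G m → N) (s : N) (v v' : G → N) (hv : ∀ g, σ (v g) = v' (α g))
    (hs : SolP y (PX y d ξ) s v) :
    SolP y (PX y d (fun v => σ (ξ v))) (σ s) v' := by
  intro i
  rw [← PX_si h σ hσ ξ i, Polynomial.eval_map_apply, ← hs i]
  exact (aeval_si h σ hσ v _ hv i).symm

theorem w_ne_si (h : SI f α y d) {N : Type} [Field N] [Algebra k N]
    (σ : N →+* N) (hσ : ∀ a, σ (algebraMap k N a) = algebraMap k N (f a)) (s : N)
    (hsw : Polynomial.aeval s d.w ≠ 0) : Polynomial.aeval (σ s) d.w ≠ 0 := by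
  intro h0
  rw [← w_si h, ← paeval_semi σ hσ] at h0
  exact hsw ((map_eq_zero_iff σ σ.injective).1 h0)

/-- The parameters are determined by solutions at `m` points. -/
theorem xi_unique {N : Type} [Field N] [Algebra k N] (ξ ξ' : Unit ⊕ Ix G m → N)
    (ht : ξ (Sum.inl ()) = ξ' (Sum.inl ())) (r : Fin m → N)
    (hr : Function.Injective r) (hw : ∀ a, Polynomial.aeval (r a) d.w ≠ 0)
    (vv : Fin m → G → N) (hsol : ∀ a, SolP y (PX y d ξ) (r a) (vv a))
    (hsol' : ∀ a, SolP y (PX y d ξ') (r a) (vv a)) : ξ = ξ' := by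
  funext v
  rcases v with u | ⟨i, j⟩
  · exact ht
  · let p : (Unit ⊕ Ix G m → N) → Polynomial N := fun ξ =>
      ∑ j : Fin m, Polynomial.C (ξ (Sum.inr (i, j))) * Polynomial.X ^ (j : ℕ)
    have hpdeg : ∀ ξ, (p ξ).degree < m := by
      intro ξ
      refine (Polynomial.degree_sum_le _ _).trans_lt ?_
      rw [Finset.sup_lt_iff (WithBot.bot_lt_coe _)]
      intro j _
      refine (Polynomial.degree_C_mul_X_pow_le _ _).trans_lt ?_
      exact_mod_cast j.2
    have hcoeff : ∀ ξ, (p ξ).coeff j = ξ (Sum.inr (i, j)) := by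
      intro ξ
      simp only [p, Polynomial.finsetSum_coeff, Polynomial.coeff_C_mul, Polynomial.coeff_X_pow]
      rw [Finset.sum_eq_single j]
      · simp
      · intro j' _ hne
        rw [if_neg, mul_zero]
        intro h
        exact hne (Fin.ext h.symm)
      · simp
    have h1 : p ξ = p ξ' := by
      classical
      refine Polynomial.eq_of_degrees_lt_of_eval_index_eq Finset.univ hr.injOn
        (by rw [Finset.card_univ, Fintype.card_fin]; exact hpdeg _)
        (by rw [Finset.card_univ, Fintype.card_fin]; exact hpdeg _) (fun a _ => ?_)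
      have h2 := (hsol a i).symm.trans (hsol' a i)
      unfold PX PP at h2
      rw [Polynomial.eval_add, Polynomial.eval_add, Polynomial.eval_mul, Polynomial.eval_mul,
        Polynomial.eval_map_algebraMap, ht] at h2
      exact mul_left_cancel₀ (hw a) (add_left_cancel h2)
    rw [← hcoeff ξ, ← hcoeff ξ', h1]

end sem

section rel

variable {k M N G : Type} [Field k] [Field M] [Algebra k M] [Field N] [Algebra M N] [Group G]
  (φ : (M ≃ₐ[k] M) →* MulAut G) {n : ℕ} (r : Fin n → N) (vv : Fin n → G → N)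

/-- The map `f` acts on `M`, on the roots and on their fibres as the element `x` of
`(G ≀ S_n) ⋊ Gal(M/k)`. -/
def RelS (f : N → N) (x : EG φ n) : Prop :=
  (∀ a : M, f (algebraMap M N a) = algebraMap M N (x.right a)) ∧
  ∀ i, f (r i) = r (x.left.right i) ∧
    ∀ g, f (vv i g) = vv (x.left.right i) (x.left.left (x.left.right i) * φ x.right g)

theorem RelS.mul {f f' : N → N} {x x' : EG φ n} (h' : RelS φ r vv f' x') (h : RelS φ r vv f x) :
    RelS φ r vv (f' ∘ f) (x' * x) := by
  refine ⟨fun a => ?_, fun i => ⟨?_, fun g => ?_⟩⟩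
  · change f' (f (algebraMap M N a)) = _
    rw [h.1, h'.1]
    rfl
  · change f' (f (r i)) = _
    rw [(h.2 i).1, (h'.2 _).1]
    rfl
  · change f' (f (vv i g)) = _
    rw [(h.2 i).2, (h'.2 _).2, eg_mul_left, eg_mul_right, wr_mul_left, wr_mul_right, wrAct_left,
      wrAct_right]
    change _ = vv (x'.left.right (x.left.right i)) (x'.left.left (x'.left.right (x.left.right i)) *
      φ x'.right (x.left.left (x'.left.right⁻¹ (x'.left.right (x.left.right i)))) *
      φ (x'.right * x.right) g)
    have h1 : x'.left.right⁻¹ (x'.left.right (x.left.right i)) = x.left.right i := by simp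
    rw [h1, map_mul, map_mul, mul_assoc]
    rfl

theorem RelS.uniq {r : Fin n → N} {vv : Fin n → G → N} (hr : Function.Injective r)
    (hv : ∀ i, Function.Injective (vv i)) {f : N → N} {x y : EG φ n}
    (hx : RelS φ r vv f x) (hy : RelS φ r vv f y) : x = y := by
  have h0 : x.right = y.right := by
    apply AlgEquiv.ext
    intro a
    apply (algebraMap M N).injective
    rw [← hx.1, ← hy.1]
  have h1 : x.left.right = y.left.right := by
    apply Equiv.ext
    intro i
    apply hr
    rw [← (hx.2 i).1, ← (hy.2 i).1]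
  apply SemidirectProduct.ext _ h0
  apply SemidirectProduct.ext _ h1
  funext j
  obtain ⟨i, rfl⟩ := x.left.right.surjective j
  have h2 := (hx.2 i).2 1
  have h3 := (hy.2 i).2 1
  rw [h2, ← h1, map_one, map_one, mul_one, mul_one] at h3
  exact hv _ h3

theorem RelS.one : RelS φ r vv id (1 : EG φ n) := by
  refine ⟨fun a => rfl, fun i => ⟨rfl, fun g => ?_⟩⟩
  change vv i g = vv i (1 * φ 1 g)
  rw [one_mul, map_one]
  rfl

end rel

section ex

variable {k M : Type} [Field k] [Field M] [Algebra k M] {G : Type} [Group G] [Fintype G]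
variable (y : MvPolynomial G M) [YData y] {J m : ℕ} (φ : (M ≃ₐ[k] M) →* MulAut G)

/-- Existence of the element of the group. -/
theorem relS_exists (d : Dt M G J) {K N : Type} [Field K] [Field N] [Algebra M K] [Algebra K N]
    [Algebra M N] [IsScalarTower M K N] [Algebra k N] [IsScalarTower k M N]
    (ξ : Unit ⊕ Ix G m → N) {n : ℕ}
    {r : Fin n → N} {vv : Fin n → G → N} (hr : Function.Injective r)
    (hrw : ∀ i, Polynomial.aeval (r i) d.w ≠ 0) (hsol : ∀ i, SolP y (PX y d ξ) (r i) (vv i))
    (hall : ∀ s v, SolP y (PX y d ξ) s v → Polynomial.aeval s d.w ≠ 0 → ∃ i, s = r i)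
    (hv : ∀ i, AlgebraicIndependent K (vv i)) (σ : N ≃ₐ[k] N) (hσξ : ∀ v, σ (ξ v) = ξ v)
    (ρ : M ≃ₐ[k] M) (hσ : ∀ a : M, σ (algebraMap M N a) = algebraMap M N (ρ a))
    (hSI : SI (ρ : M →+* M) (φ ρ) y d) :
    ∃ x : Wr G n, RelS φ r vv σ ⟨x, ρ⟩ := by
  have hv' : ∀ i, AlgebraicIndependent M (vv i) := fun i =>
    (hv i).restrictScalars (algebraMap M K).injective
  have h1 : ∀ i, ∃ j : Fin n, ∃ g : G, σ (r i) = r j ∧ ∀ h, σ (vv i h) = vv j (g * φ ρ h) := by
    intro i
    have h2 := SolP_si hSI (σ : N →+* N) hσ ξ (r i) (vv i) (fun g => σ (vv i ((φ ρ)⁻¹ g)))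
      (fun g => by
        have h3 : (φ ρ)⁻¹ (φ ρ g) = g := (φ ρ).symm_apply_apply g
        rw [h3]
        rfl) (hsol i)
    have hξ' : (fun v => (σ : N →+* N) (ξ v)) = ξ := funext hσξ
    rw [hξ'] at h2
    have hw : Polynomial.aeval ((σ : N →+* N) (r i)) d.w ≠ 0 :=
      w_ne_si hSI (σ : N →+* N) hσ (r i) (hrw i)
    obtain ⟨j, hj⟩ := hall _ _ h2 hw
    have hj' : (σ : N →+* N) (r i) = r j := hj
    have h3 := hsol j
    obtain ⟨π, hπ⟩ := exists_perm_of_esymm (k := M) (vv j) (fun g => σ (vv i ((φ ρ)⁻¹ g)))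
      (fun i' => by
        have h4 := h2 (some i')
        have h5 := h3 (some i')
        rw [hj'] at h4
        exact h5.trans h4.symm)
    have h4 : aeval (vv j) (rename π y) = aeval (vv j) y := by
      rw [Pool.Agent.H391R2.T4.aeval_mem_orb, ← hπ]
      have h5 := h2 none
      rw [hj'] at h5
      exact h5.trans (h3 none).symm
    obtain ⟨g, hg⟩ := YData.stab (y := y) π
      (algebraicIndependent_iff_injective_aeval.1 (hv' j) h4)
    refine ⟨j, g, hj', fun h => ?_⟩
    have h5 := congrFun hπ (φ ρ h)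
    have h6 : (φ ρ)⁻¹ (φ ρ h) = h := (φ ρ).symm_apply_apply h
    simp only [h6] at h5
    rw [hg] at h5
    exact h5
  choose s g h2 h3 using h1
  have hs : Function.Injective s := by
    intro i j hij
    apply hr
    apply σ.injective
    rw [h2, h2, hij]
  let s' : Equiv.Perm (Fin n) := Equiv.ofBijective s (Finite.injective_iff_bijective.1 hs)
  refine ⟨⟨fun j => g (s'.symm j), s'⟩, hσ, fun i => ⟨h2 i, fun h => ?_⟩⟩
  change σ (vv i h) = vv (s' i) (g (s'.symm (s' i)) * φ ρ h)
  rw [Equiv.symm_apply_apply]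
  exact h3 i h

end ex

end Pool.Agent.W200.IJ
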