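import Mathlib
import Pool.Agent.W200.IG.HG
import Pool.Agent.W200.IJ.SD
import Pool.Agent.H391R2.WrTrd

/-!
Descent of the semilinear realisation to a finite Galois extension of a field of rational
functions.
-/

set_option autoImplicit false

namespace Pool.Agent.W200.IJ

open Pool.Agent.H391R2 (Wr exists_field)
open Pool.Agent.H391R2.T4 (EG exists_equiv_of_ker eq_on_adjoin field_le)
open Pool.Agent.W200.IG (restrict_sep_bij)

set_option linter.unusedSectionVars false

/-- A homomorphism from the automorphism group of a normal extension which is trivial on the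
automorphisms fixing finitely many elements comes from a finite Galois extension. -/
theorem finite_descent2 {F N : Type} [Field F] [Field N] [Algebra F N] [Normal F N]
    {W : Type} [Group W] (π : (N ≃ₐ[F] N) →* W) (hπ : Function.Surjective π) (S : Set N)
    (hSf : S.Finite) (hS : ∀ γ, (∀ s ∈ S, γ s = s) → π γ = 1) :
    ∃ (E : Type) (_ : Field E) (_ : Algebra F E) (_ : Algebra E N) (_ : IsScalarTower F E N)
      (_ : FiniteDimensional F E) (_ : IsGalois F E) (e : (E ≃ₐ[F] E) ≃* W),
      (∀ (γ : N ≃ₐ[F] N) (x : E), γ (algebraMap E N x) = algebraMap E N (e.symm (π γ) x)) ∧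
      ∀ x : N, IsSeparable F x → (∀ γ : N ≃ₐ[F] N, π γ = 1 → γ x = x) →
        x ∈ Set.range (algebraMap E N) := by
  classical
  let Es := separableClosure F N
  let e : (N ≃ₐ[F] N) ≃* (Es ≃ₐ[F] Es) := MulEquiv.ofBijective _ (restrict_sep_bij F N)
  have he : ∀ (γ : N ≃ₐ[F] N) (x : Es), ((e γ x : Es) : N) = γ (x : N) := fun γ x =>
    AlgEquiv.restrictNormal_commutes γ Es x
  obtain ⟨q, hq⟩ := ExpChar.exists F
  have hq' : ExpChar N q := expChar_of_injective_algebraMap (algebraMap F N).injective q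
  have hq'' : ExpChar Es q := expChar_of_injective_algebraMap (algebraMap F Es).injective q
  have hpow : ∀ s : N, ∃ (n : ℕ) (y : Es), (y : N) = s ^ q ^ n := fun s =>
    IsPurelyInseparable.pow_mem Es q s
  choose nn yy hyy using hpow
  have hfin : Finite (yy '' S) := (hSf.image yy).to_subtype
  let E0 : FiniteGaloisIntermediateField F Es := FiniteGaloisIntermediateField.adjoin F (yy '' S)
  let res : (Es ≃ₐ[F] Es) →* (E0 ≃ₐ[F] E0) := AlgEquiv.restrictNormalHom E0
  have hres : Function.Surjective res := AlgEquiv.restrictNormalHom_surjective _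
  let π' : (Es ≃ₐ[F] Es) →* W := π.comp e.symm.toMonoidHom
  have hker : res.ker ≤ π'.ker := by
    intro γ hγ
    rw [MonoidHom.mem_ker] at hγ ⊢
    change π (e.symm γ) = 1
    apply hS
    intro s hs
    have h1 : yy s ∈ (E0 : IntermediateField F Es) :=
      FiniteGaloisIntermediateField.subset_adjoin F (yy '' S) ⟨s, hs, rfl⟩
    have h2 : γ (yy s) = yy s := by
      have h3 := AlgEquiv.restrictNormal_commutes γ E0 (⟨yy s, h1⟩ : E0)
      have h4 : γ.restrictNormal E0 = 1 := hγ
      rw [h4] at h3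
      exact h3.symm
    have h3 : (e.symm γ) (s ^ q ^ nn s) = s ^ q ^ nn s := by
      rw [← hyy, ← he, MulEquiv.apply_symm_apply, h2]
    rw [map_pow] at h3
    exact iterateFrobenius_inj N q (nn s) h3
  let π'' : (E0 ≃ₐ[F] E0) →* W := res.liftOfSurjective hres ⟨π', hker⟩
  have hπ'' : ∀ γ, π'' (res γ) = π' γ := fun γ =>
    MonoidHom.liftOfRightInverse_comp_apply _ _ _ _ γ
  have hsurj : Function.Surjective π'' := by
    intro w
    obtain ⟨γ, rfl⟩ := hπ w
    refine ⟨res (e γ), ?_⟩
    rw [hπ'']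
    change π (e.symm (e γ)) = π γ
    rw [MulEquiv.symm_apply_apply]
  let E := IntermediateField.fixedField π''.ker
  have hgal : IsGalois F E := IsGalois.of_fixedField_normal_subgroup π''.ker
  have hkerE : (AlgEquiv.restrictNormalHom (F := F) (K₁ := E0) E).ker = π''.ker := by
    ext σ
    rw [MonoidHom.mem_ker]
    constructor
    · intro h
      have h1 : σ ∈ E.fixingSubgroup := by
        rw [IntermediateField.mem_fixingSubgroup_iff]
        intro x hx
        have h2 := AlgEquiv.restrictNormal_commutes σ E (⟨x, hx⟩ : E)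
        have h3 : σ.restrictNormal E = 1 := h
        rw [h3] at h2
        exact h2.symm
      rw [IntermediateField.fixingSubgroup_fixedField] at h1
      exact h1
    · intro h
      apply AlgEquiv.ext
      intro x
      apply Subtype.ext
      have h1 := AlgEquiv.restrictNormal_commutes σ E x
      exact h1.trans (x.2 ⟨σ, h⟩)
  obtain ⟨ε, hε⟩ := exists_equiv_of_ker (AlgEquiv.restrictNormalHom (F := F) (K₁ := E0) E)
    π'' (AlgEquiv.restrictNormalHom_surjective E0) hsurj hkerE
  let j : E →+* N := (algebraMap Es N).comp ((algebraMap E0 Es).comp (algebraMap E E0))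
  let _ : Algebra E N := j.toAlgebra
  have hT : IsScalarTower F E N := IsScalarTower.of_algebraMap_eq fun x => rfl
  refine ⟨E, inferInstance, inferInstance, inferInstance, hT, inferInstance, hgal, ε, ?_, ?_⟩
  · intro γ x
    have h1 : π γ = π'' (res (e γ)) := by
      rw [hπ'']
      change π γ = π (e.symm (e γ))
      rw [MulEquiv.symm_apply_apply]
    rw [h1, ← hε, MulEquiv.symm_apply_apply]
    have h2 : algebraMap E E0 (AlgEquiv.restrictNormalHom (F := F) (K₁ := E0) E (res (e γ)) x) =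
        res (e γ) (algebraMap E E0 x) := AlgEquiv.restrictNormal_commutes (res (e γ)) E x
    have h3 : algebraMap E0 Es (res (e γ) (algebraMap E E0 x)) =
        e γ (algebraMap E0 Es (algebraMap E E0 x)) :=
      AlgEquiv.restrictNormal_commutes (e γ) E0 (algebraMap E E0 x)
    change γ (algebraMap Es N (algebraMap E0 Es (algebraMap E E0 x))) =
      algebraMap Es N (algebraMap E0 Es (algebraMap E E0 _))
    rw [h2, h3]
    exact (he γ _).symm
  · intro x hx hfix
    have hmem : x ∈ Es := mem_separableClosure_iff.2 hx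
    have h1 : (⟨x, hmem⟩ : Es) ∈ (E0 : IntermediateField F Es) := by
      have h2 := InfiniteGalois.fixedField_fixingSubgroup (E0 : IntermediateField F Es)
      rw [← h2]
      rintro ⟨γ', hγ'⟩
      have h3 : res γ' = 1 := by
        apply AlgEquiv.ext
        intro z
        apply Subtype.ext
        have h4 := AlgEquiv.restrictNormal_commutes γ' E0 z
        exact h4.trans (hγ' z)
      have h4 : π (e.symm γ') = 1 := hker h3
      apply Subtype.ext
      have h5 := he (e.symm γ') ⟨x, hmem⟩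
      rw [MulEquiv.apply_symm_apply] at h5
      exact h5.trans (hfix _ h4)
    have h2 : (⟨⟨x, hmem⟩, h1⟩ : E0) ∈ E := by
      rintro ⟨γ'', hγ''⟩
      obtain ⟨γ', rfl⟩ := hres γ''
      apply Subtype.ext
      have h3 := AlgEquiv.restrictNormal_commutes γ' E0 (⟨⟨x, hmem⟩, h1⟩ : E0)
      refine h3.trans ?_
      have h4 : π (e.symm γ') = 1 := by
        have h5 : π'' (res γ') = 1 := hγ''
        rw [hπ''] at h5
        exact h5
      apply Subtype.ext
      have h5 := he (e.symm γ') ⟨x, hmem⟩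
      rw [MulEquiv.apply_symm_apply] at h5
      exact h5.trans (hfix _ h4)
    exact ⟨⟨_, h2⟩, rfl⟩

section reg

/-- Constants fixed by the geometric automorphisms. -/
theorem reg_of_inv {k M E F : Type} [Field k] [Field M] [Algebra k M] [FiniteDimensional k M]
    [IsGalois k M] [Field E] [Field F] [Algebra k E] [Algebra E F] [Algebra M F] [Algebra k F]
    [IsScalarTower k E F] [IsScalarTower k M F] [FiniteDimensional E F] [IsGalois E F]
    (hE : ∀ e : E, IsAlgebraic k e → e ∈ Set.range (algebraMap k E))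
    (hsurj : ∀ ρ : M ≃ₐ[k] M, ∃ σ : F ≃ₐ[E] F, ∀ a : M, σ (algebraMap M F a) =
      algebraMap M F (ρ a))
    (y : F) (hy : IsAlgebraic M y)
    (hinv : ∀ σ : F ≃ₐ[E] F, (∀ a : M, σ (algebraMap M F a) = algebraMap M F a) → σ y = y) :
    y ∈ Set.range (algebraMap M F) := by
  classical
  obtain ⟨ω, ω', hω⟩ := exists_dual k M
  choose s hs using hsurj
  have hmove : ∀ (σ : F ≃ₐ[E] F) (ρ : M ≃ₐ[k] M), (∀ a : M, σ (algebraMap M F a) =
      algebraMap M F (ρ a)) → σ y = s ρ y := by
    intro σ ρ h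
    have h1 := hinv ((s ρ)⁻¹ * σ) (fun a => by
      change (s ρ).symm (σ _) = _
      rw [AlgEquiv.symm_apply_eq, h, hs])
    have h2 : (s ρ).symm (σ y) = y := h1
    rw [AlgEquiv.symm_apply_eq] at h2
    exact h2
  have hyk : ∀ ρ, IsAlgebraic k (s ρ y) := by
    intro ρ
    have h1 : IsAlgebraic k y := hy.restrictScalars k
    exact h1.algHom ((s ρ : F →ₐ[E] F).restrictScalars k)
  have hrest : ∀ σ : F ≃ₐ[E] F, ∃ ρ : M ≃ₐ[k] M, ∀ a : M, σ (algebraMap M F a) =
      algebraMap M F (ρ a) := fun σ =>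
    ⟨(σ.restrictScalars k).restrictNormal M, fun a =>
      (AlgEquiv.restrictNormal_commutes (σ.restrictScalars k) M a).symm⟩
  have hc : ∀ i, ∃ c : k, algebraMap k F c =
      ∑ ρ : M ≃ₐ[k] M, algebraMap M F (ρ (ω' i)) * s ρ y := by
    intro i
    have h1 : ∀ σ : F ≃ₐ[E] F, σ (∑ ρ : M ≃ₐ[k] M, algebraMap M F (ρ (ω' i)) * s ρ y) =
        ∑ ρ : M ≃ₐ[k] M, algebraMap M F (ρ (ω' i)) * s ρ y := by
      intro σ
      obtain ⟨δ, hδ⟩ := hrest σ
      rw [map_sum]
      refine Fintype.sum_bijective (fun ρ => δ * ρ) (Group.mulLeft_bijective δ) _ _ fun ρ => ?_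
      rw [map_mul, hδ]
      have h2 : σ (s ρ y) = s (δ * ρ) y := hmove (σ * s ρ) (δ * ρ) (fun a => by
        change σ (s ρ _) = _
        rw [hs, hδ]
        rfl)
      rw [h2]
      rfl
    obtain ⟨e, he⟩ := IsGalois.mem_bot_iff_fixed (F := E) (E := F) _ |>.2 h1
    have halg : IsAlgebraic k (∑ ρ : M ≃ₐ[k] M, algebraMap M F (ρ (ω' i)) * s ρ y) := by
      rw [← mem_algebraicClosure_iff]
      refine sum_mem fun ρ _ => mul_mem ?_ (mem_algebraicClosure_iff.2 (hyk ρ))
      rw [mem_algebraicClosure_iff]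
      exact (Algebra.IsAlgebraic.isAlgebraic (R := k) (ρ (ω' i))).algebraMap
    have he' : algebraMap E F e = ∑ ρ : M ≃ₐ[k] M, algebraMap M F (ρ (ω' i)) * s ρ y := he
    rw [← he'] at halg
    have h2 : IsAlgebraic k e := (isAlgebraic_algebraMap_iff (algebraMap E F).injective).1 halg
    obtain ⟨c, rfl⟩ := hE e h2
    refine ⟨c, ?_⟩
    rw [← he', ← IsScalarTower.algebraMap_apply]
  choose c hc using hc
  refine ⟨∑ i, ω i * algebraMap k M (c i), ?_⟩
  rw [map_sum]
  have h1 : ∀ i, algebraMap M F (ω i * algebraMap k M (c i)) =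
      ∑ ρ : M ≃ₐ[k] M, algebraMap M F ((1 : M ≃ₐ[k] M) (ω i) * ρ (ω' i)) * s ρ y := by
    intro i
    rw [map_mul, ← IsScalarTower.algebraMap_apply, hc, Finset.mul_sum]
    refine Finset.sum_congr rfl fun ρ _ => ?_
    rw [map_mul, mul_assoc]
    rfl
  simp only [h1]
  rw [Finset.sum_comm]
  have h2 : ∀ ρ : M ≃ₐ[k] M, ∑ i, algebraMap M F ((1 : M ≃ₐ[k] M) (ω i) * ρ (ω' i)) * s ρ y =
      (if 1 = ρ then 1 else 0) * s ρ y := by
    intro ρ
    rw [← Finset.sum_mul, ← map_sum, hω]
    split_ifs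
    · rw [map_one]
    · rw [map_zero]
  simp only [h2]
  rw [Finset.sum_eq_single 1]
  · rw [if_pos rfl, one_mul]
    exact (hmove 1 1 (fun a => rfl)).symm
  · intro ρ _ hρ
    rw [if_neg (Ne.symm hρ), zero_mul]
  · intro h
    exact absurd (Finset.mem_univ _) h

/-- Constants of the field of rational functions. -/
theorem const_frac {k V E : Type} [Field k] [Field E] [Algebra (MvPolynomial V k) E]
    [IsFractionRing (MvPolynomial V k) E] [Algebra k E] [IsScalarTower k (MvPolynomial V k) E]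
    (e : E) (he : IsAlgebraic k e) : e ∈ Set.range (algebraMap k E) := by
  by_cases h0 : e = 0
  · exact ⟨0, by rw [h0, map_zero]⟩
  have h1 : IsIntegral k e := he.isIntegral
  have h2 : IsIntegral (MvPolynomial V k) e := h1.tower_top
  obtain ⟨f, rfl⟩ := IsIntegrallyClosed.isIntegral_iff.1 h2
  have hinj : Function.Injective (algebraMap (MvPolynomial V k) E) :=
    IsFractionRing.injective _ _
  have h3 : IsAlgebraic k f := (isAlgebraic_algebraMap_iff hinj).1 he
  have hf0 : f ≠ 0 := fun h => h0 (by rw [h, map_zero])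
  obtain ⟨a, ha, b, hb⟩ := h3.exists_nonzero_dvd (mem_nonZeroDivisors_of_ne_zero hf0)
  have h4 : IsUnit f := by
    refine isUnit_of_dvd_unit ⟨b, hb⟩ ?_
    exact (isUnit_iff_ne_zero.2 ha).map (algebraMap k (MvPolynomial V k))
  obtain ⟨c, -, hc⟩ := MvPolynomial.isUnit_iff_eq_C_of_isReduced.1 h4
  refine ⟨c, ?_⟩
  rw [hc, IsScalarTower.algebraMap_apply k (MvPolynomial V k) E]
  rfl

end reg

section arith

variable {k M K N : Type} [Field k] [Field M] [Algebra k M] [FiniteDimensional k M]
  [IsGalois k M] [Field K] [IsAlgClosed K] [Algebra M K] [Algebra.IsAlgebraic M K] [Field N]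
  [IsAlgClosed N] [Algebra K N] [Algebra M N] [IsScalarTower M K N] [Algebra k N]
  [IsScalarTower k M N]

/-- Passage to a finite Galois extension of a field of rational functions. -/
theorem arith2 (G : Type) [Group G] [Finite G] (φ : (M ≃ₐ[k] M) →* MulAut G) (n : ℕ)
    {V : Type} (Z : V → N) (hZ : IsTranscendenceBasis K Z)
    (r : Fin n → N) (hr : Function.Injective r) (vv : Fin n → G → N)
    (hv : ∀ i, Function.Injective (vv i))
    (h1 : ∀ σ : N ≃ₐ[k] N, (∀ v, σ (Z v) = Z v) → ∃ X : EG φ n, RelS φ r vv σ X)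
    (h2 : ∀ X : Wr G n, ∃ γ : N ≃ₐ[K] N, (∀ v, γ (Z v) = Z v) ∧ RelS φ r vv γ ⟨X, 1⟩)
    (h3 : ∀ ρ : M ≃ₐ[k] M, ∃ σ : N ≃ₐ[k] N, (∀ v, σ (Z v) = Z v) ∧
        ∀ a : M, σ (algebraMap M N a) = algebraMap M N (ρ a)) :
    ∃ (E : Type) (_ : Field E) (_ : Algebra (MvPolynomial V k) E)
      (_ : IsFractionRing (MvPolynomial V k) E) (_ : Algebra k E)
      (_ : IsScalarTower k (MvPolynomial V k) E)
      (F : Type) (_ : Field F) (_ : Algebra E F) (_ : Algebra M F) (_ : Algebra k F)
      (_ : IsScalarTower k E F) (_ : IsScalarTower k M F) (_ : FiniteDimensional E F)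
      (_ : IsGalois E F) (γ : (F ≃ₐ[E] F) ≃* EG φ n),
      (∀ (σ : F ≃ₐ[E] F) (x : M), σ (algebraMap M F x) = algebraMap M F ((γ σ).right x)) ∧
      (∀ y : F, IsAlgebraic M y → y ∈ Set.range (algebraMap M F)) := by
  have hZM : IsTranscendenceBasis M Z := basis_down Z hZ
  have hZk : IsTranscendenceBasis k Z := basis_down Z hZM
  obtain ⟨E, iE1, iE2, iE3, iE4, iE5, ψ, hψ⟩ := exists_field hZk.1
  let _ : Algebra E N := ψ.toRingHom.toAlgebra
  have hTE : IsScalarTower k E N := IsScalarTower.of_algebraMap_eq fun x => (ψ.commutes x).symm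
  have hZE : ∀ v, Z v = algebraMap E N (algebraMap (MvPolynomial V k) E (MvPolynomial.X v)) := by
    intro i
    change _ = ψ _
    rw [hψ, MvPolynomial.aeval_X]
  have halg : Algebra.IsAlgebraic E N :=
    Pool.Agent.H391R2.T4.alg_of_range Z hZk fun v => ⟨_, (hZE v).symm⟩
  have hcl : IsAlgClosure E N := ⟨inferInstance, halg⟩
  have hnorm : Normal E N := IsAlgClosure.normal E N
  have hfix : ∀ γ : N ≃ₐ[E] N, ∀ v, (γ.restrictScalars k) (Z v) = Z v := by
    intro γ v
    rw [hZE]
    exact γ.commutes _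
  -- automorphisms over `E`
  have hEfix : ∀ σ : N ≃ₐ[k] N, (∀ v, σ (Z v) = Z v) → ∀ x : E, σ (algebraMap E N x) =
      algebraMap E N x := by
    intro σ hσ x
    exact eq_on_adjoin (σ : N →ₐ[k] N) (AlgHom.id k N) (Set.range Z) (by
      rintro _ ⟨v, rfl⟩
      exact hσ v) _ (field_le Z hZE x)
  have huniq : ∀ (f : N → N) (x y : EG φ n), RelS φ r vv f x → RelS φ r vv f y → x = y :=
    fun f x y => RelS.uniq φ hr hv
  have h1' := fun γ : N ≃ₐ[E] N => h1 (γ.restrictScalars k) (hfix γ)
  choose X hX using h1'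
  let π : (N ≃ₐ[E] N) →* EG φ n := MonoidHom.mk' X (fun γ γ' => by
    have h4 : RelS φ r vv (⇑(γ.restrictScalars k) ∘ ⇑(γ'.restrictScalars k)) (X γ * X γ') :=
      RelS.mul φ r vv (hX γ) (hX γ')
    exact huniq _ _ _ (hX (γ * γ')) h4)
  have hπ : ∀ γ : N ≃ₐ[E] N, RelS φ r vv γ (π γ) := fun γ => hX γ
  have hgeo : ∀ x : Wr G n, ∃ γ : N ≃ₐ[E] N, π γ = ⟨x, 1⟩ ∧
      ∀ c : K, γ (algebraMap K N c) = algebraMap K N c := by
    intro x
    obtain ⟨γ, hγZ, hγ⟩ := h2 x
    let γ' : N ≃ₐ[E] N := AlgEquiv.ofRingEquiv (f := (γ : N ≃+* N))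
      (hEfix ((γ.restrictScalars M).restrictScalars k) hγZ)
    exact ⟨γ', huniq _ _ _ (hπ γ') hγ, fun c => γ.commutes c⟩
  have hsurj : Function.Surjective π := by
    intro z
    obtain ⟨σ₀, hσ₀, hσ₀M⟩ := h3 z.right
    let σ : N ≃ₐ[E] N := AlgEquiv.ofRingEquiv (f := (σ₀ : N ≃+* N)) (hEfix σ₀ hσ₀)
    have h4 : (π σ).right = z.right := by
      apply AlgEquiv.ext
      intro a
      apply (algebraMap M N).injective
      rw [← (hπ σ).1]
      exact hσ₀M a
    obtain ⟨σ₁, hσ₁, -⟩ := hgeo (z.left * (π σ).left⁻¹)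
    refine ⟨σ₁ * σ, ?_⟩
    rw [map_mul, hσ₁]
    apply SemidirectProduct.ext
    · rw [Pool.Agent.H391R2.T4.eg_mul_left, map_one]
      change z.left * (π σ).left⁻¹ * (π σ).left = z.left
      rw [inv_mul_cancel_right]
    · rw [Pool.Agent.H391R2.T4.eg_mul_right, one_mul, h4]
  let b := Module.finBasis k M
  let S : Set N := (Set.range fun q => algebraMap M N (b q)) ∪
    (Set.range r ∪ ⋃ i, Set.range (vv i))
  have hSf : S.Finite := (Set.finite_range _).union
    ((Set.finite_range r).union (Set.finite_iUnion fun i => Set.finite_range _))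
  have hbM : ∀ γ : N ≃ₐ[E] N, (∀ q, γ (algebraMap M N (b q)) = algebraMap M N (b q)) →
      ∀ a : M, γ (algebraMap M N a) = algebraMap M N a := by
    intro γ hγ a
    rw [← b.sum_repr a, map_sum, map_sum]
    refine Finset.sum_congr rfl fun q _ => ?_
    rw [Algebra.smul_def, map_mul, map_mul, hγ]
    congr 1
    rw [← IsScalarTower.algebraMap_apply k M N]
    exact (γ.restrictScalars k).commutes _
  have hS : ∀ γ : N ≃ₐ[E] N, (∀ s ∈ S, γ s = s) → π γ = 1 := by
    intro γ hγ
    refine huniq _ _ _ (hπ γ) ⟨fun a => ?_, fun i => ⟨hγ _ (Or.inr (Or.inl ⟨i, rfl⟩)),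
      fun g => ?_⟩⟩
    · exact hbM γ (fun q => hγ _ (Or.inl ⟨q, rfl⟩)) a
    · have h4 := hγ (vv i g) (Or.inr (Or.inr (Set.mem_iUnion.2 ⟨i, ⟨g, rfl⟩⟩)))
      rw [h4]
      change vv i g = vv i (1 * φ 1 g)
      rw [one_mul, map_one]
      rfl
  obtain ⟨F, iF1, iF2, iF3, iF4, iF5, iF6, e, he1, he2⟩ := finite_descent2 π hsurj S hSf hS
  have hMF : ∀ a : M, algebraMap M N a ∈ (algebraMap F N).range := by
    intro a
    refine he2 _ ?_ (fun γ hγ => ?_)
    · have h4 : IsSeparable k a := Algebra.IsSeparable.isSeparable k a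
      have h5 : IsSeparable k (algebraMap M N a) := by
        have h6 := h4.map (IsScalarTower.toAlgHom k M N) (algebraMap M N).injective
        exact h6
      exact h5.tower_top E
    · have h4 := (hπ γ).1 a
      rw [hγ] at h4
      exact h4
  have hjinj : Function.Injective (algebraMap F N) := (algebraMap F N).injective
  let j₀ : F ≃+* (algebraMap F N).range := RingEquiv.ofBijective (algebraMap F N).rangeRestrict
    ⟨fun a b hab => hjinj (congrArg Subtype.val hab), (algebraMap F N).rangeRestrict_surjective⟩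
  let f : M →+* F := (j₀.symm : (algebraMap F N).range →+* F).comp
    ((algebraMap M N).codRestrict (algebraMap F N).range hMF)
  have hf : ∀ a, algebraMap F N (f a) = algebraMap M N a := by
    intro a
    have h4 : j₀ (f a) = (algebraMap M N).codRestrict (algebraMap F N).range hMF a :=
      j₀.apply_symm_apply _
    exact congrArg Subtype.val h4
  let _ : Algebra M F := f.toAlgebra
  have hf' : ∀ a, algebraMap F N (algebraMap M F a) = algebraMap M N a := hf
  let _ : Algebra k F := ((algebraMap E F).comp (algebraMap k E)).toAlgebra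
  have hT1 : IsScalarTower k E F := IsScalarTower.of_algebraMap_eq fun x => rfl
  have hT2 : IsScalarTower k M F := IsScalarTower.of_algebraMap_eq fun x => by
    apply hjinj
    rw [hf', ← IsScalarTower.algebraMap_apply k M N]
    change algebraMap F N (algebraMap E F (algebraMap k E x)) = _
    rw [← IsScalarTower.algebraMap_apply E F N, ← IsScalarTower.algebraMap_apply k E N]
  have hact : ∀ (σ : F ≃ₐ[E] F) (x : M), σ (algebraMap M F x) =
      algebraMap M F ((e σ).right x) := by
    intro σ x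
    obtain ⟨γ, hγ⟩ := hsurj (e σ)
    have h4 := he1 γ (algebraMap M F x)
    rw [hγ, MulEquiv.symm_apply_apply, hf', (hπ γ).1, hγ, ← hf'] at h4
    exact (hjinj h4).symm
  refine ⟨E, iE1, iE3, iE5, iE2, iE4, F, inferInstance, inferInstance, inferInstance,
    inferInstance, hT1, hT2, inferInstance, inferInstance, e, hact, fun y hy => ?_⟩
  have hTMFN : IsScalarTower M F N := IsScalarTower.of_algebraMap_eq fun x => (hf' x).symm
  refine reg_of_inv (k := k) (E := E) (const_frac (V := V)) (fun ρ => ?_) y hy (fun σ hσ => ?_)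
  · refine ⟨e.symm ⟨1, ρ⟩, fun a => ?_⟩
    rw [hact, MulEquiv.apply_symm_apply]
  · have h4 : IsAlgebraic M (algebraMap F N y) := hy.algebraMap
    have h5 : IsAlgebraic K (algebraMap F N y) := h4.tower_top K
    obtain ⟨c, hc⟩ := minpoly.mem_range_of_degree_eq_one K (algebraMap F N y)
      (IsAlgClosed.degree_eq_one_of_irreducible K (minpoly.irreducible h5.isIntegral))
    have h6 : (e σ).right = 1 := by
      apply AlgEquiv.ext
      intro a
      apply (algebraMap M F).injective
      rw [← hact, hσ]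
      rfl
    obtain ⟨γ, hγ, hγK⟩ := hgeo (e σ).left
    have h7 : π γ = e σ := by
      rw [hγ]
      apply SemidirectProduct.ext
      · rfl
      · exact h6.symm
    have h8 := he1 γ y
    rw [h7, MulEquiv.symm_apply_apply, ← hc, hγK, hc] at h8
    exact (hjinj h8).symm

end arith

end Pool.Agent.W200.IJ
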