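import Mathlib
import Pool.Agent.W200.IJ.SD

/-!
The semilinear twisting argument.
-/

set_option autoImplicit false

namespace Pool.Agent.W200.IJ

open MvPolynomial
open Pool.Agent.H391R2 (Wr)
open Pool.Agent.H391R2.T4 (orb tv SolP YData tv_mulLeft EG)
open Pool.Agent.W200.IG (Dt GD)
open Pool.Agent.W200.IH (Ix PX geo3 rel_exists basis_of_card exists_auto act map_act act_mul
  act_one eq_of_gen exists_twist_basis bh bh_apply extW extW_right_castAdd extW_right_natAdd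
  extW_left_castAdd extW_left_natAdd bh_split bh_extW alg_mono alg_of_alg basis_over LL Mu Mu_apply
  Mu_injective det_ne_zero)

set_option linter.unusedSectionVars false

section twist

variable {p : ℕ} [Fact p.Prime] {k M : Type} [Field k] [Field M] [Algebra k M]
  [FiniteDimensional k M] [IsGalois k M] {G : Type} [Group G] [Fintype G]
  (φ : (M ≃ₐ[k] M) →* MulAut G) (y : MvPolynomial G M) {J m m₀ n : ℕ}

/-- The action on the extra points. -/
def sq (ρ : M ≃ₐ[k] M) (q : (M ≃ₐ[k] M) × Fin m₀) : (M ≃ₐ[k] M) × Fin m₀ := (ρ * q.1, q.2)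

open Classical in
theorem twist_semi [YData y] (d : Dt M G J) (h : GD y d)
    (hSI : ∀ ρ : M ≃ₐ[k] M, SI (ρ : M →+* M) (φ ρ) y d)
    (Ψ : Polynomial (MvPolynomial (Fin (Fintype.card G)) M)) (hm : Ψ.Monic)
    (hΨ : Ψ.map ((aeval fun i : Fin (Fintype.card G) => esymm G M (i + 1) :
      MvPolynomial (Fin (Fintype.card G)) M →ₐ[M] MvPolynomial G M) :
      MvPolynomial (Fin (Fintype.card G)) M →+* MvPolynomial G M) =
      ∏ q ∈ orb y, (Polynomial.X - Polynomial.C q))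
    (T : ℕ) (hT : ∀ e, (Ψ.coeff e).totalDegree ≤ T)
    (hsep : (Polynomial.C d.c * d.R * ∏ q ∈ (orb y).erase y,
      (Polynomial.C d.c * (Polynomial.X ^ 2 * d.R) -
      Polynomial.C (aeval d.l q - aeval d.l y))).Separable)
    (D : ℕ) (hJM : J + (m + 2) < D) (hB : T * (J + (m + 2)) < D) (hM : 2 + d.R.natDegree = D)
    (hn : 3 ≤ n) (hdeg : Ψ.natDegree * D = n + (m + 2) + J)
    {K N A ι : Type} [Field K] [Algebra M K] [Algebra.IsAlgebraic M K] [Field N] [Algebra K N]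
    [Algebra M N] [IsScalarTower M K N] [Algebra k N] [IsScalarTower k M N] [IsAlgClosed N]
    [CharP M p] [CharP N p] [CommRing A] [Algebra (ZMod p) A] [Fintype ι] [DecidableEq ι]
    (bA : Module.Basis ι (ZMod p) A) [Finite Aˣ] (fM : ZMod p →+* M)
    (eQ : ((M ≃ₐ[k] M) × Fin m₀) ≃ Fin (m + 2)) (σ₀ : Aˣ) (hχ₀ : ∀ h : G, ∃ χ : Aˣ →* G, χ σ₀ = h)
    (x : ((M ≃ₐ[k] M) × Fin m₀) → ι → N) (ξ : Unit ⊕ Ix G (m + 2) → N)
    (hxξ : IsTranscendenceBasis K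
      (Sum.elim (fun p : ((M ≃ₐ[k] M) × Fin m₀) × ι => x p.1 p.2) ξ))
    (gen : Fin m₀ → Abelianization G) (hgen : Subgroup.closure (Set.range gen) = ⊤) :
    ∃ (V : Type) (_ : Finite V) (Z : V → N) (r : Fin n → N) (vv : Fin n → G → N),
      IsTranscendenceBasis K Z ∧ Function.Injective r ∧ (∀ i, Function.Injective (vv i)) ∧
      (∀ σ : N ≃ₐ[k] N, (∀ v, σ (Z v) = Z v) → ∃ X : EG φ n, RelS φ r vv σ X) ∧
      (∀ X : Wr G n, ∃ γ : N ≃ₐ[K] N, (∀ v, γ (Z v) = Z v) ∧ RelS φ r vv γ ⟨X, 1⟩) ∧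
      (∀ ρ : M ≃ₐ[k] M, ∃ σ : N ≃ₐ[k] N, (∀ v, σ (Z v) = Z v) ∧
        ∀ a : M, σ (algebraMap M N a) = algebraMap M N (ρ a)) := by
  -- notation
  obtain ⟨xs, hxs⟩ : ∃ xs : ((M ≃ₐ[k] M) × Fin m₀) × ι → N, xs = fun p => x p.1 p.2 := ⟨_, rfl⟩
  have hxsapp : ∀ q i, xs (q, i) = x q i := fun q i => by rw [hxs]
  rw [← hxs] at hxξ
  -- the base field `K(x)`
  obtain ⟨K', hK'⟩ : ∃ K' : IntermediateField K N, K' = IntermediateField.adjoin K (Set.range xs) :=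
    ⟨_, rfl⟩
  have hxK' : ∀ q i, x q i ∈ K' := fun q i => by
    rw [hK', ← hxsapp]; exact IntermediateField.subset_adjoin _ _ ⟨(q, i), rfl⟩
  have hξ' : IsTranscendenceBasis K' ξ := by
    rw [hK']
    exact basis_over xs ξ hxξ
  have hTkk : IsScalarTower M K' N := IsScalarTower.of_algebraMap_eq fun x => by
    have h1 : algebraMap M K' x = algebraMap K K' (algebraMap M K x) :=
      IsScalarTower.algebraMap_apply M K K' x
    rw [h1, ← IsScalarTower.algebraMap_apply K K' N, IsScalarTower.algebraMap_apply M K N]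
  obtain ⟨r₀, vv₀, hr₀, hrw, hsol, hall, hvind, hreal⟩ := geo3 y d h Ψ hm hΨ T hT
    hsep D hJM hB hM (n + (m + 2)) (by omega) hdeg (K := K') ξ hξ'
  have hv₀ : ∀ i, Function.Injective (vv₀ i) := fun i => (hvind i).injective
  have hex : ∀ γ : N ≃ₐ[M] N, (∀ v, γ (ξ v) = ξ v) → ∃ X, IH.Rel r₀ vv₀ γ X := fun γ hγ =>
    rel_exists y d (K := K') ξ hr₀ hrw hsol hall hvind γ hγ
  have hexS : ∀ (σ : N ≃ₐ[k] N) (ρ : M ≃ₐ[k] M), (∀ v, σ (ξ v) = ξ v) →
      (∀ a : M, σ (algebraMap M N a) = algebraMap M N (ρ a)) →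
      ∃ X, RelS φ r₀ vv₀ σ ⟨X, ρ⟩ := fun σ ρ hσ hρ =>
    relS_exists y φ d (K := K') ξ hr₀ hrw hsol hall hvind σ hσ ρ hρ (hSI ρ)
  -- bases over `M`
  have hbM : IsTranscendenceBasis M (Sum.elim xs ξ) := basis_down _ hxξ
  have hxM : ∀ q, AlgebraicIndependent M (x q) := by
    intro q
    have h1 : Function.Injective (fun i : ι => (Sum.inl (q, i) :
        (((M ≃ₐ[k] M) × Fin m₀) × ι) ⊕ (Unit ⊕ Ix G (m + 2)))) := by
      intro i j hij
      have h2 := Sum.inl_injective hij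
      exact (Prod.ext_iff.1 h2).2
    have h2 := hbM.1.comp _ h1
    have h3 : (Sum.elim xs ξ) ∘ (fun i : ι => (Sum.inl (q, i) :
        (((M ≃ₐ[k] M) × Fin m₀) × ι) ⊕ (Unit ⊕ Ix G (m + 2)))) = x q := by
      funext i
      exact hxsapp q i
    rw [h3] at h2
    exact h2
  have hdet : ∀ q, (LL bA ((algebraMap M N).comp fM) (x q)).det ≠ 0 := fun q =>
    det_ne_zero bA fM (x q) (hxM q)
  -- the translations
  have hτ := fun ρ : M ≃ₐ[k] M => exists_semi_auto (k := k) hbM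
    (Y' := Sum.elim (fun p => x (sq ρ p.1) p.2) ξ) (by
      let e : (((M ≃ₐ[k] M) × Fin m₀) × ι) ⊕ (Unit ⊕ Ix G (m + 2)) ≃
          (((M ≃ₐ[k] M) × Fin m₀) × ι) ⊕ (Unit ⊕ Ix G (m + 2)) :=
        Equiv.sumCongr (Equiv.prodCongr (Equiv.prodCongr (Equiv.mulLeft ρ) (Equiv.refl _))
          (Equiv.refl _)) (Equiv.refl _)
      have h1 := hbM.comp_equiv e
      have h2 : (Sum.elim xs ξ) ∘ e = Sum.elim (fun p => x (sq ρ p.1) p.2) ξ := by
        funext v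
        rcases v with ⟨q, i⟩ | v
        · exact hxsapp _ _
        · rfl
      rw [h2] at h1
      exact h1) ρ
  choose τ hτM hτY using hτ
  have hτx : ∀ ρ q, (τ ρ : N →+* N) ∘ x q = x (sq ρ q) := by
    intro ρ q
    funext i
    have h1 := hτY ρ (Sum.inl (q, i))
    rw [Sum.elim_inl, hxsapp] at h1
    exact h1
  -- linear automorphisms
  have hauto : ∀ {W : Type} [Finite W] (w : W → N) (_ : IsTranscendenceBasis K (Sum.elim xs w))
      (c : ((M ≃ₐ[k] M) × Fin m₀) → Aˣ),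
      ∃ γ : N ≃ₐ[K] N, (∀ q, (γ : N →+* N) ∘ x q = act (Mu bA M fM (c q)) (x q)) ∧
        ∀ v, γ (w v) = w v := by
    intro W _ w hw c
    have h1 : IsTranscendenceBasis K
        (Sum.elim (fun p : ((M ≃ₐ[k] M) × Fin m₀) × ι => act (Mu bA M fM (c p.1)) (x p.1) p.2) w) := by
      refine basis_of_card le_rfl (Sum.elim xs w) hw.1 _ (alg_mono ?_ hw.isAlgebraic_field)
      rw [IntermediateField.adjoin_le_iff]
      rintro _ ⟨⟨q, i⟩ | v, rfl⟩
      · have h2 : x q i = act (Mu bA M fM (c q)⁻¹) (act (Mu bA M fM (c q)) (x q)) i := by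
          rw [← act_mul, ← map_mul, inv_mul_cancel, map_one, act_one]
        change xs (q, i) ∈ _
        rw [hxsapp, h2]
        unfold act
        refine sum_mem fun j _ => mul_mem ?_ ?_
        · rw [IsScalarTower.algebraMap_apply M K N]
          exact IntermediateField.algebraMap_mem _ _
        · exact IntermediateField.subset_adjoin _ _ ⟨Sum.inl (q, j), rfl⟩
      · exact IntermediateField.subset_adjoin _ _ ⟨Sum.inr v, rfl⟩
    obtain ⟨γ, hγ⟩ := exists_auto hw h1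
    refine ⟨γ, fun q => ?_, fun v => hγ (Sum.inr v)⟩
    funext i
    have h2 := hγ (Sum.inl (q, i))
    rw [Sum.elim_inl, Sum.elim_inl, hxsapp] at h2
    exact h2
  -- reference automorphisms
  let cc : Fin m₀ → ((M ≃ₐ[k] M) × Fin m₀) → Aˣ := fun j => Pi.mulSingle (1, j) σ₀
  have hγ0 := fun j : Fin m₀ => hauto ξ hxξ (cc j)
  choose γ0 hγ0x hγ0ξ using hγ0
  have hX0 := fun j : Fin m₀ => hex ((γ0 j).restrictScalars M) (hγ0ξ j)
  choose X0 hX0 using hX0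
  have hh : ∀ j, ∃ g : G, Abelianization.of g = bh G _ (X0 j) * (gen j)⁻¹ := fun j =>
    QuotientGroup.mk_surjective _
  choose hg hhg using hh
  have hχ := fun j => hχ₀ (hg j)
  choose χ hχσ using hχ
  -- the twisted coordinates
  have htw := fun j : Fin m₀ => exists_twist_basis (x (1, j)) (hxM (1, j)).linearIndependent
    (Mu bA M fM) (Mu_injective bA M fM) (χ j) (fun c => by
      obtain ⟨γ, hγ, -⟩ := hauto ξ hxξ (fun _ => c)
      exact ⟨γ.restrictScalars M, fun i => congrFun (hγ (1, j)) i⟩)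
  choose ℓ1 b1 hℓ1 hb1 hℓb1 hℓγ1 using htw
  obtain ⟨ℓ, hℓdef⟩ : ∃ ℓ : ((M ≃ₐ[k] M) × Fin m₀) → G → G → N,
    ℓ = fun q i g => τ q.1 (ℓ1 q.2 i ((φ q.1)⁻¹ g)) := ⟨_, rfl⟩
  obtain ⟨b, hbdef⟩ : ∃ b : ((M ≃ₐ[k] M) × Fin m₀) → G → G → N,
    b = fun q i g => τ q.1 (b1 q.2 i ((φ q.1)⁻¹ g)) := ⟨_, rfl⟩
  have hℓb : ∀ q g g', ∑ i, ℓ q i g * b q i g' = if g = g' then 1 else 0 := by
    intro q g g'
    rw [hℓdef, hbdef]
    have h1 := congrArg (τ q.1) (hℓb1 q.2 ((φ q.1)⁻¹ g) ((φ q.1)⁻¹ g'))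
    rw [map_sum] at h1
    simp only [map_mul] at h1
    rw [h1]
    by_cases h : g = g'
    · rw [if_pos h, if_pos (by rw [h]), map_one]
    · rw [if_neg h, if_neg (fun h' => h ((φ q.1)⁻¹.injective h')), map_zero]
  -- conjugation to the first point
  have hconj : ∀ (σ : N ≃ₐ[k] N) (ρ : M ≃ₐ[k] M) (q : (M ≃ₐ[k] M) × Fin m₀) (c : Aˣ),
      (∀ a : M, σ (algebraMap M N a) = algebraMap M N (ρ a)) →
      (σ : N →+* N) ∘ x q = act (Mu bA M fM c) (x (sq ρ q)) →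
      ∃ κ : N ≃ₐ[M] N, (∀ i, κ (x (1, q.2) i) = act (Mu bA M fM c) (x (1, q.2)) i) ∧
        ∀ e, σ (τ q.1 e) = τ (ρ * q.1) (κ e) := by
    intro σ ρ q c hσ hσx
    let κ₀ : N ≃ₐ[k] N := (τ q.1).trans (σ.trans (τ (ρ * q.1)).symm)
    have hκ₀ : ∀ e, κ₀ e = (τ (ρ * q.1)).symm (σ (τ q.1 e)) := fun e => rfl
    have hκM : ∀ a : M, κ₀ (algebraMap M N a) = algebraMap M N a := by
      intro a
      rw [hκ₀, hτM, hσ, AlgEquiv.symm_apply_eq, hτM]
      rfl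
    let κ : N ≃ₐ[M] N := AlgEquiv.ofRingEquiv (f := (κ₀ : N ≃+* N)) hκM
    refine ⟨κ, fun i => ?_, fun e => ?_⟩
    · change (τ (ρ * q.1)).symm (σ (τ q.1 (x (1, q.2) i))) = _
      rw [AlgEquiv.symm_apply_eq]
      have h1 : τ q.1 (x (1, q.2) i) = x q i := by
        have h2 := congrFun (hτx q.1 (1, q.2)) i
        have h3 : sq q.1 (1, q.2) = q := by
          unfold sq
          rw [mul_one]
        rw [h3] at h2
        exact h2
      rw [h1]
      have h4 := congrFun hσx i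
      have h5 := congrFun (map_actMu bA fM (τ (ρ * q.1) : N →+* N) c (x (1, q.2))) i
      have h6 : sq (ρ * q.1) (1, q.2) = sq ρ q := by
        unfold sq
        rw [mul_one]
      rw [hτx, h6] at h5
      exact h4.trans h5.symm
    · change _ = τ (ρ * q.1) ((τ (ρ * q.1)).symm (σ (τ q.1 e)))
      rw [AlgEquiv.apply_symm_apply]
  have hℓσ : ∀ (σ : N ≃ₐ[k] N) (ρ : M ≃ₐ[k] M) (q : (M ≃ₐ[k] M) × Fin m₀) (c : Aˣ),
      (∀ a : M, σ (algebraMap M N a) = algebraMap M N (ρ a)) →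
      (σ : N →+* N) ∘ x q = act (Mu bA M fM c) (x (sq ρ q)) → ∀ i g,
      σ (ℓ q i g) = ℓ (sq ρ q) i (φ (ρ * q.1) (χ q.2 c) * φ ρ g) := by
    intro σ ρ q c hσ hσx i g
    obtain ⟨κ, hκx, hκ⟩ := hconj σ ρ q c hσ hσx
    rw [hℓdef]
    change σ (τ q.1 (ℓ1 q.2 i ((φ q.1)⁻¹ g))) = τ (ρ * q.1) (ℓ1 q.2 i ((φ (ρ * q.1))⁻¹
      (φ (ρ * q.1) (χ q.2 c) * φ ρ g)))
    rw [hκ, hℓγ1 q.2 κ c hκx]
    congr 2
    rw [map_mul]
    congr 1
    · exact ((φ (ρ * q.1)).symm_apply_apply _).symm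
    · rw [map_mul, mul_inv_rev]
      change _ = (φ q.1)⁻¹ ((φ ρ)⁻¹ (φ ρ g))
      have h1 : (φ ρ)⁻¹ (φ ρ g) = g := (φ ρ).symm_apply_apply g
      rw [h1]
  have hbfix : ∀ (γ : N ≃ₐ[M] N) (q : (M ≃ₐ[k] M) × Fin m₀), (∀ i, γ (x q i) = x q i) → ∀ i g,
      γ (b q i g) = b q i g := by
    intro γ q hγx i g
    have h1 : sq (1 : M ≃ₐ[k] M) q = q := by
      unfold sq
      rw [one_mul]
    obtain ⟨κ, hκx, hκ⟩ := hconj (γ.restrictScalars k) 1 q 1 (fun a => γ.commutes a) (by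
      rw [map_one, act_one, h1]
      funext i
      exact hγx i)
    rw [hbdef]
    have h2 : κ (b1 q.2 i ((φ q.1)⁻¹ g)) = b1 q.2 i ((φ q.1)⁻¹ g) := by
      refine eq_of_gen (x (1, q.2)) κ AlgEquiv.refl (fun i => ?_) _ (hb1 _ _ _)
      rw [hκx, map_one, act_one]
      rfl
    have h3 := hκ (b1 q.2 i ((φ q.1)⁻¹ g))
    rw [h2, one_mul] at h3
    exact h3
  let z : ((M ≃ₐ[k] M) × Fin m₀) → G → N := fun q i =>
    ∑ g, b q i g * vv₀ (Fin.natAdd n (eQ q)) g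
  have hz : ∀ q g, vv₀ (Fin.natAdd n (eQ q)) g = ∑ i, ℓ q i g * z q i := by
    intro q g
    simp only [z, Finset.mul_sum]
    rw [Finset.sum_comm]
    have h1 : ∀ g', ∑ i, ℓ q i g * (b q i g' * vv₀ (Fin.natAdd n (eQ q)) g') =
        (if g = g' then 1 else 0) * vv₀ (Fin.natAdd n (eQ q)) g' := by
      intro g'
      rw [← hℓb, Finset.sum_mul]
      exact Finset.sum_congr rfl fun i _ => by ring
    simp only [h1]
    rw [Finset.sum_eq_single g]
    · simp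
    · intro g' _ hne
      rw [if_neg (Ne.symm hne), zero_mul]
    · intro h
      exact absurd (Finset.mem_univ _) h
  -- the coordinates
  let W := Unit ⊕ (((M ≃ₐ[k] M) × Fin m₀) ⊕ (((M ≃ₐ[k] M) × Fin m₀) × G))
  let w : W → N := Sum.elim (fun _ => ξ (Sum.inl ())) (Sum.elim (fun q => r₀ (Fin.natAdd n (eQ q)))
    (fun p => z p.1 p.2))
  let JJ := (Fin m₀ × ι) ⊕ (Fin m₀ ⊕ (Fin m₀ × G))
  let Zs : Unit ⊕ ((M ≃ₐ[k] M) × JJ) → N := Sum.elim (fun _ => ξ (Sum.inl ()))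
    (fun p => Sum.elim (fun a : Fin m₀ × ι => UU bA fM (x (p.1, a.1)) a.2)
      (Sum.elim (fun j => r₀ (Fin.natAdd n (eQ (p.1, j)))) (fun a => z (p.1, a.1) a.2)) p.2)
  have hcardQ : Nat.card (M ≃ₐ[k] M) * m₀ = m + 2 := by
    have h1 := Nat.card_congr eQ
    rw [Nat.card_prod, Nat.card_fin, Nat.card_fin] at h1
    exact h1
  have hcardξ : Nat.card ((((M ≃ₐ[k] M) × Fin m₀) × ι) ⊕ (Unit ⊕ Ix G (m + 2))) =
      Nat.card (M ≃ₐ[k] M) * m₀ * Nat.card ι + (1 + (Nat.card G + 1) * (m + 2)) := by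
    simp only [Ix, Nat.card_sum, Nat.card_prod, Nat.card_fin, Nat.card_unique,
      Finite.card_option, ← Nat.card_eq_fintype_card]
  have hcard1 : Nat.card ((((M ≃ₐ[k] M) × Fin m₀) × ι) ⊕ W) ≤
      Nat.card ((((M ≃ₐ[k] M) × Fin m₀) × ι) ⊕ (Unit ⊕ Ix G (m + 2))) := by
    rw [hcardξ]
    have h1 : Nat.card ((((M ≃ₐ[k] M) × Fin m₀) × ι) ⊕ W) = Nat.card (M ≃ₐ[k] M) * m₀ * Nat.card ι +
        (1 + (Nat.card (M ≃ₐ[k] M) * m₀ + Nat.card (M ≃ₐ[k] M) * m₀ * Nat.card G)) := by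
      simp only [W, Nat.card_sum, Nat.card_prod, Nat.card_fin, Nat.card_unique]
    rw [h1, hcardQ]
    have h2 : (Nat.card G + 1) * (m + 2) = (m + 2) + (m + 2) * Nat.card G := by ring
    omega
  have hcard2 : Nat.card (Unit ⊕ ((M ≃ₐ[k] M) × JJ)) ≤
      Nat.card ((((M ≃ₐ[k] M) × Fin m₀) × ι) ⊕ (Unit ⊕ Ix G (m + 2))) := by
    rw [hcardξ]
    have h1 : Nat.card (Unit ⊕ ((M ≃ₐ[k] M) × JJ)) = 1 + Nat.card (M ≃ₐ[k] M) *
        (m₀ * Nat.card ι + (m₀ + m₀ * Nat.card G)) := by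
      simp only [JJ, Nat.card_sum, Nat.card_prod, Nat.card_fin, Nat.card_unique]
    have h2 : Nat.card (M ≃ₐ[k] M) * (m₀ * Nat.card ι + (m₀ + m₀ * Nat.card G)) =
        Nat.card (M ≃ₐ[k] M) * m₀ * Nat.card ι + (Nat.card (M ≃ₐ[k] M) * m₀ +
          Nat.card (M ≃ₐ[k] M) * m₀ * Nat.card G) := by ring
    rw [h1, h2, hcardQ]
    have h3 : (Nat.card G + 1) * (m + 2) = (m + 2) + (m + 2) * Nat.card G := by ring
    omega
  have hinjP : Function.Injective (fun a : Fin (m + 2) => r₀ (Fin.natAdd n a)) :=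
    hr₀.comp (Fin.natAdd_injective (m + 2) n)
  -- the parameters in a field containing `x`, `w`
  have hℓmem : ∀ (S : IntermediateField M N), (∀ q i, x q i ∈ S) → ∀ q i g, ℓ q i g ∈ S := by
    intro S hxS q i g
    rw [hℓdef]
    change τ q.1 (ℓ1 q.2 i ((φ q.1)⁻¹ g)) ∈ S
    have h1 : ∀ a ∈ IntermediateField.adjoin M (Set.range (x (1, q.2))), τ q.1 a ∈ S := by
      intro a ha
      induction ha using IntermediateField.adjoin_induction with
      | mem a ha =>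
        obtain ⟨i, rfl⟩ := ha
        have h2 := congrFun (hτx q.1 (1, q.2)) i
        have h3 : τ q.1 (x (1, q.2) i) = x (sq q.1 (1, q.2)) i := h2
        rw [h3]
        exact hxS _ _
      | algebraMap a => rw [hτM]; exact S.algebraMap_mem _
      | add a b _ _ h1 h2 => rw [map_add]; exact S.add_mem h1 h2
      | inv a _ h1 => rw [map_inv₀]; exact S.inv_mem h1
      | mul a b _ _ h1 h2 => rw [map_mul]; exact S.mul_mem h1 h2
    exact h1 _ (hℓ1 _ _ _)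
  have hξS : ∀ S : IntermediateField M N, (∀ q i, x q i ∈ S) → (∀ v, w v ∈ S) → ∀ v, ξ v ∈ S := by
    intro S hxS hwS v
    refine IH.theta_mem y d ξ S (hwS (Sum.inl ())) (fun a => r₀ (Fin.natAdd n a)) hinjP
      (fun a => ?_) (fun a => hrw _) (fun a => vv₀ (Fin.natAdd n a))
      (fun a => hsol _) (fun a i => ?_) v
    · have h1 := hwS (Sum.inr (Sum.inl (eQ.symm a)))
      change r₀ (Fin.natAdd n (eQ (eQ.symm a))) ∈ S at h1
      rw [Equiv.apply_symm_apply] at h1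
      exact h1
    have h1 : ∀ g, vv₀ (Fin.natAdd n a) g ∈ S := by
      intro g
      obtain ⟨q, rfl⟩ := eQ.surjective a
      rw [hz]
      exact S.sum_mem fun i _ => S.mul_mem (hℓmem S hxS _ _ _) (hwS (Sum.inr (Sum.inr (q, i))))
    have h2 : aeval (vv₀ (Fin.natAdd n a)) (tv y i) =
        ((aeval fun g => (⟨_, h1 g⟩ : S)) (tv y i) : S) := by
      have h3 := comp_aeval_apply (f := fun g => (⟨_, h1 g⟩ : S)) (φ := S.val) (tv y i)
      exact h3.symm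
    rw [h2]
    exact Subtype.property _
  have hZ' : IsTranscendenceBasis K (Sum.elim xs w) := by
    refine basis_of_card hcard1 (Sum.elim xs ξ) hxξ.1 _ (alg_mono ?_ hxξ.isAlgebraic_field)
    rw [IntermediateField.adjoin_le_iff]
    have h0 : ∀ q i, x q i ∈ IntermediateField.restrictScalars M
        (IntermediateField.adjoin K (Set.range (Sum.elim xs w))) := fun q i =>
      IntermediateField.subset_adjoin K _ ⟨Sum.inl (q, i), hxsapp q i⟩
    have h1 := hξS (IntermediateField.restrictScalars M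
      (IntermediateField.adjoin K (Set.range (Sum.elim xs w)))) h0
      (fun v => IntermediateField.subset_adjoin K _ ⟨Sum.inr v, rfl⟩)
    rintro _ ⟨v | v, rfl⟩
    · exact IntermediateField.subset_adjoin K _ ⟨Sum.inl v, rfl⟩
    · exact h1 v
  have hwZ : ∀ v : W, ∃ v', Zs v' = w v := by
    rintro (u | (q | ⟨q, g⟩))
    · exact ⟨Sum.inl (), rfl⟩
    · exact ⟨Sum.inr (q.1, Sum.inr (Sum.inl q.2)), rfl⟩
    · exact ⟨Sum.inr (q.1, Sum.inr (Sum.inr (q.2, g))), rfl⟩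
  have hZ : IsTranscendenceBasis K Zs := by
    refine basis_of_card hcard2 (Sum.elim xs ξ) hxξ.1 _
      (alg_of_alg _ (Set.range (Sum.elim xs w)) ?_ hZ'.isAlgebraic_field)
    rintro _ ⟨⟨q, i⟩ | v, rfl⟩
    · change IsAlgebraic _ (xs (q, i))
      rw [hxsapp]
      have h1 := UU_alg bA fM (x q) (hdet q) (IntermediateField.restrictScalars M
        (IntermediateField.adjoin K (Set.range Zs))) (fun i =>
          IntermediateField.subset_adjoin K _ ⟨Sum.inr (q.1, Sum.inl (q.2, i)), rfl⟩) i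
      exact h1
    · obtain ⟨v', hv'⟩ := hwZ v
      change IsAlgebraic _ (w v)
      rw [← hv']
      exact isAlgebraic_algebraMap (⟨Zs v', IntermediateField.subset_adjoin K _ ⟨v', rfl⟩⟩ :
        IntermediateField.adjoin K (Set.range Zs))
  -- an automorphism acting on `x` by `c` and permuting `w`
  have hact : ∀ (σ : N ≃ₐ[k] N) (ρ : M ≃ₐ[k] M) (c : ((M ≃ₐ[k] M) × Fin m₀) → Aˣ),
      (∀ a : M, σ (algebraMap M N a) = algebraMap M N (ρ a)) →
      (∀ q, (σ : N →+* N) ∘ x q = act (Mu bA M fM (c q)) (x (sq ρ q))) →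
      σ (ξ (Sum.inl ())) = ξ (Sum.inl ()) →
      (∀ q, σ (r₀ (Fin.natAdd n (eQ q))) = r₀ (Fin.natAdd n (eQ (sq ρ q)))) →
      (∀ q i, σ (z q i) = z (sq ρ q) i) →
      (∀ v, σ (ξ v) = ξ v) ∧ ∃ (X : Wr G (n + (m + 2))) (X' : Wr G n),
        RelS φ r₀ vv₀ σ ⟨X, ρ⟩ ∧
        RelS φ (fun i => r₀ (Fin.castAdd (m + 2) i)) (fun i => vv₀ (Fin.castAdd (m + 2) i)) σ
          ⟨X', ρ⟩ ∧
        (∀ q, X.left (Fin.natAdd n (eQ (sq ρ q))) = φ (ρ * q.1) (χ q.2 (c q))) ∧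
        ∀ i, X'.left i = X.left (Fin.castAdd (m + 2) i) := by
    intro σ ρ c hσ hσx hσt hσr hσz
    have hv : ∀ q g, σ (vv₀ (Fin.natAdd n (eQ q)) g) =
        vv₀ (Fin.natAdd n (eQ (sq ρ q))) (φ (ρ * q.1) (χ q.2 (c q)) * φ ρ g) := by
      intro q g
      rw [hz, hz, map_sum]
      refine Finset.sum_congr rfl fun i _ => ?_
      rw [map_mul, hℓσ σ ρ q (c q) hσ (hσx q), hσz]
    have hsqs : ∀ q : (M ≃ₐ[k] M) × Fin m₀, ∃ q' : (M ≃ₐ[k] M) × Fin m₀, sq ρ q' = q :=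
      fun q => ⟨(ρ⁻¹ * q.1, q.2), by
        unfold sq
        simp⟩
    have hξσ : (fun v => (σ : N →+* N) (ξ v)) = ξ := by
      refine xi_unique (y := y) (d := d) _ ξ hσt (fun a => r₀ (Fin.natAdd n a)) hinjP
        (fun a => hrw _) (fun a => vv₀ (Fin.natAdd n a)) (fun a => ?_) (fun a => hsol _)
      obtain ⟨q₁, rfl⟩ := eQ.surjective a
      obtain ⟨q, rfl⟩ := hsqs q₁
      have h1 := SolP_si (hSI ρ) (σ : N →+* N) hσ ξ (r₀ (Fin.natAdd n (eQ q)))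
        (vv₀ (Fin.natAdd n (eQ q)))
        (vv₀ (Fin.natAdd n (eQ (sq ρ q))) ∘ Equiv.mulLeft (φ (ρ * q.1) (χ q.2 (c q))))
        (fun g => hv q g) (hsol _)
      intro i
      have h2 := h1 i
      rw [tv_mulLeft] at h2
      have h3 : (σ : N →+* N) (r₀ (Fin.natAdd n (eQ q))) = r₀ (Fin.natAdd n (eQ (sq ρ q))) := hσr q
      rw [h3] at h2
      exact h2
    have hξσ' : ∀ v, σ (ξ v) = ξ v := fun v => congrFun hξσ v
    refine ⟨hξσ', ?_⟩
    obtain ⟨X, hX⟩ := hexS σ ρ hξσ' hσ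
    have hXr : ∀ q, X.right (Fin.natAdd n (eQ q)) = Fin.natAdd n (eQ (sq ρ q)) := by
      intro q
      apply hr₀
      have h1 := (hX.2 (Fin.natAdd n (eQ q))).1
      rw [hσr] at h1
      exact h1.symm
    have hXl : ∀ q, X.left (Fin.natAdd n (eQ (sq ρ q))) = φ (ρ * q.1) (χ q.2 (c q)) := by
      intro q
      have h1 := (hX.2 (Fin.natAdd n (eQ q))).2 1
      change σ (vv₀ (Fin.natAdd n (eQ q)) 1) = vv₀ (X.right (Fin.natAdd n (eQ q)))
        (X.left (X.right (Fin.natAdd n (eQ q))) * φ ρ 1) at h1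
      rw [hXr, hv, map_one, mul_one, mul_one] at h1
      exact (hv₀ _ h1).symm
    obtain ⟨X', hX'r, hX'l⟩ := exists_restr' X (fun a => by
      obtain ⟨q, rfl⟩ := eQ.surjective a
      exact ⟨_, hXr q⟩)
    refine ⟨X, X', hX, ⟨hσ, fun i => ⟨?_, fun g => ?_⟩⟩, hXl, hX'l⟩
    · rw [(hX.2 _).1]
      change r₀ (X.right (Fin.castAdd (m + 2) i)) = r₀ (Fin.castAdd (m + 2) (X'.right i))
      rw [hX'r]
    · rw [(hX.2 _).2]
      change vv₀ (X.right (Fin.castAdd (m + 2) i)) (X.left (X.right (Fin.castAdd (m + 2) i)) *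
        φ ρ g) = vv₀ (Fin.castAdd (m + 2) (X'.right i)) (X'.left (X'.right i) * φ ρ g)
      rw [hX'r, hX'l]
  have hsq1 : ∀ q : (M ≃ₐ[k] M) × Fin m₀, sq (1 : M ≃ₐ[k] M) q = q := fun q => by
    unfold sq
    rw [one_mul]
  have hfixZ : ∀ γ : N ≃ₐ[M] N, (∀ q i, γ (x q i) = x q i) → (∀ v, γ (ξ v) = ξ v) →
      (∀ a, γ (r₀ (Fin.natAdd n a)) = r₀ (Fin.natAdd n a)) →
      (∀ a g, γ (vv₀ (Fin.natAdd n a) g) = vv₀ (Fin.natAdd n a) g) → ∀ v, γ (Zs v) = Zs v := by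
    intro γ h1 h2 h3 h4
    rintro (u | ⟨γ₁, (⟨j, i⟩ | (j | ⟨j, i⟩))⟩)
    · exact h2 _
    · have h5 := UU_inv bA fM (γ : N →+* N) (x (γ₁, j)) (x (γ₁, j)) 1 (hdet _) (hdet _) (by
        rw [map_one, act_one]
        funext i
        exact h1 _ _)
      exact congrFun h5 i
    · exact h3 _
    · change γ (z (γ₁, j) i) = z (γ₁, j) i
      simp only [z, map_sum, map_mul]
      refine Finset.sum_congr rfl fun g _ => ?_
      rw [h4, hbfix γ (γ₁, j) (fun i => h1 _ i)]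
  have hrestr : ∀ (γ : N → N) (X : Wr G n), IH.Rel r₀ vv₀ γ (extW X (m + 2)) →
      IH.Rel (fun i => r₀ (Fin.castAdd (m + 2) i)) (fun i => vv₀ (Fin.castAdd (m + 2) i)) γ X ∧
      (∀ a, γ (r₀ (Fin.natAdd n a)) = r₀ (Fin.natAdd n a)) ∧
      (∀ a g, γ (vv₀ (Fin.natAdd n a) g) = vv₀ (Fin.natAdd n a) g) := by
    intro γ X hX
    refine ⟨fun i => ⟨?_, fun g => ?_⟩, fun a => ?_, fun a g => ?_⟩
    · rw [(hX _).1, extW_right_castAdd]
    · rw [(hX _).2, extW_right_castAdd, extW_left_castAdd]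
    · rw [(hX _).1, extW_right_natAdd]
    · rw [(hX _).2, extW_right_natAdd, extW_left_natAdd, one_mul]
  obtain ⟨r, hrdef⟩ : ∃ r : Fin n → N, r = fun i => r₀ (Fin.castAdd (m + 2) i) := ⟨_, rfl⟩
  obtain ⟨vv, hvvdef⟩ : ∃ vv : Fin n → G → N, vv = fun i => vv₀ (Fin.castAdd (m + 2) i) :=
    ⟨_, rfl⟩
  rw [← hrdef, ← hvvdef] at hact hrestr
  have hr : Function.Injective r := by
    rw [hrdef]
    exact hr₀.comp (Fin.castAdd_injective n (m + 2))
  have hv : ∀ i, Function.Injective (vv i) := by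
    rw [hvvdef]
    exact fun i => hv₀ _
  -- the group of realised elements
  let H : Subgroup (Wr G n) :=
    { carrier := {X | ∃ γ : N ≃ₐ[K] N, (∀ v, γ (Zs v) = Zs v) ∧ IH.Rel r vv γ X}
      mul_mem' := by
        rintro X Y ⟨γ, hγ, hX⟩ ⟨γ', hγ', hY⟩
        refine ⟨γ'.trans γ, fun v => ?_, ?_⟩
        · change γ (γ' (Zs v)) = Zs v
          rw [hγ', hγ]
        · have h1 : IH.Rel r vv (γ ∘ γ') (X * Y) := IH.Rel.mul r vv hX hY
          exact h1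
      one_mem' := ⟨AlgEquiv.refl, fun v => rfl, IH.Rel.one r vv⟩
      inv_mem' := by
        rintro X ⟨γ, hγ, hX⟩
        refine ⟨γ.symm, fun v => ?_, ?_⟩
        · rw [AlgEquiv.symm_apply_eq, hγ]
        · exact IH.Rel.inv r vv (fun z => γ.symm_apply_apply z) hX }
  have hker : ∀ X : Wr G n, bh G n X = 1 → X ∈ H := by
    intro X hX
    obtain ⟨γ, hγξ, hγ⟩ := hreal (extW X (m + 2)) (by
      rw [← bh_apply, bh_extW]
      exact hX)
    have hγx : ∀ q i, γ (x q i) = x q i := fun q i => γ.commutes ⟨x q i, hxK' q i⟩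
    obtain ⟨h1, h2, h3⟩ := hrestr γ X hγ
    exact ⟨γ.restrictScalars K, hfixZ (γ.restrictScalars M) hγx hγξ h2 h3, h1⟩
  have hn0 : 0 < n := by omega
  have hinvx : ∀ c q, act (Mu bA M fM c⁻¹) (act (Mu bA M fM c) (x q)) = x q := by
    intro c q
    rw [← act_mul, ← map_mul, inv_mul_cancel, map_one, act_one]
  have hgenb : ∀ j, gen j ∈ H.map (bh G n) := by
    intro j
    obtain ⟨γb, hγb, hγbw⟩ := hauto w hZ' (cc j)
    obtain ⟨hXξ, X, X', hX, hX', hXl, hX'l⟩ := hact ((γb.restrictScalars M).restrictScalars k) 1 (cc j)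
      (fun a => (γb.restrictScalars M).commutes a) (fun q => by rw [hsq1]; exact hγb q)
      (hγbw (Sum.inl ())) (fun q => by rw [hsq1]; exact hγbw (Sum.inr (Sum.inl q)))
      (fun q i => by rw [hsq1]; exact hγbw (Sum.inr (Sum.inr (q, i))))
    have hX1 : IH.Rel r₀ vv₀ γb X := ((relS_one_iff φ r₀ vv₀ _ X).1 hX).2
    have hX'1 : IH.Rel r vv γb X' := ((relS_one_iff φ r vv _ X').1 hX').2
    have hX'H : X' ∈ H := ⟨γb, fun v => by
      rcases v with u | ⟨γ₁, (⟨j, i⟩ | (j | ⟨j, i⟩))⟩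
      · exact hγbw (Sum.inl ())
      · have h5 := UU_inv bA fM (γb : N →+* N) (x (γ₁, j)) (x (γ₁, j)) _ (hdet _) (hdet _)
          (hγb (γ₁, j))
        exact congrFun h5 i
      · exact hγbw (Sum.inr (Sum.inl (γ₁, j)))
      · exact hγbw (Sum.inr (Sum.inr ((γ₁, j), i))), hX'1⟩
    have hbh : bh G _ X = bh G _ X' * (bh G _ (X0 j) * (gen j)⁻¹) := by
      rw [bh_split]
      congr 1
      · rw [bh_apply]
        exact Finset.prod_congr rfl fun i _ => by rw [hX'l]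
      · rw [← hhg, ← Equiv.prod_comp eQ, Finset.prod_eq_single (1, j)]
        · have h1 := hXl (1, j)
          rw [hsq1] at h1
          rw [h1]
          simp only [cc, Pi.mulSingle_eq_same, hχσ, mul_one, map_one]
          rfl
        · intro q _ hne
          have h1 := hXl q
          rw [hsq1] at h1
          rw [h1]
          simp only [cc]
          rw [Pi.mulSingle_eq_of_ne hne, map_one, map_one, map_one]
        · intro h
          exact absurd (Finset.mem_univ _) h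
    have hX0r : IH.Rel r₀ vv₀ (γ0 j).symm (X0 j)⁻¹ :=
      IH.Rel.inv r₀ vv₀ (fun z => (γ0 j).symm_apply_apply z) (hX0 j)
    have hδ : IH.Rel r₀ vv₀ (γb ∘ (γ0 j).symm) (X * (X0 j)⁻¹) := IH.Rel.mul _ _ hX1 hX0r
    obtain ⟨g₁, hg₁⟩ : ∃ g₁ : G, Abelianization.of g₁ = bh G _ (X * (X0 j)⁻¹) :=
      QuotientGroup.mk_surjective _
    obtain ⟨Y₁, hY₁⟩ : ∃ Y₁ : Wr G n, bh G n Y₁ = Abelianization.of g₁ := by
      refine ⟨⟨Pi.mulSingle ⟨0, hn0⟩ g₁, 1⟩, ?_⟩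
      rw [bh_apply, Finset.prod_eq_single ⟨0, hn0⟩]
      · simp
      · intro j _ hj
        change Abelianization.of ((Pi.mulSingle (⟨0, hn0⟩ : Fin n) g₁ : Fin n → G) j) = 1
        rw [Pi.mulSingle_eq_of_ne hj, map_one]
      · intro h
        exact absurd (Finset.mem_univ _) h
    obtain ⟨γ', hγ'ξ, hγ'⟩ := hreal (extW Y₁ (m + 2) * (X * (X0 j)⁻¹)⁻¹) (by
      rw [← bh_apply, map_mul, map_inv, bh_extW, hY₁, hg₁, mul_inv_cancel])
    have hγ'x : ∀ q i, γ' (x q i) = x q i := fun q i => γ'.commutes ⟨x q i, hxK' q i⟩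
    have h0x : ∀ q, ((γ0 j).symm : N →+* N) ∘ x q = act (Mu bA M fM (cc j q)⁻¹) (x q) := by
      intro q
      funext i
      change (γ0 j).symm (x q i) = _
      rw [AlgEquiv.symm_apply_eq]
      have h1 := congrFun (map_actMu bA fM (γ0 j : N →+* N) (cc j q)⁻¹ (x q)) i
      rw [hγ0x, hinvx] at h1
      exact h1.symm
    let δ : N ≃ₐ[K] N := ((γ0 j).symm.trans γb).trans (γ'.restrictScalars K)
    have hδx : ∀ q i, δ (x q i) = x q i := by
      intro q i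
      change γ' (γb ((γ0 j).symm (x q i))) = x q i
      have h1 := congrFun (h0x q) i
      have h2 : (γ0 j).symm (x q i) = act (Mu bA M fM (cc j q)⁻¹) (x q) i := h1
      rw [h2]
      have h3 := congrFun (map_actMu bA fM (γb : N →+* N) (cc j q)⁻¹ (x q)) i
      rw [hγb, hinvx] at h3
      have h4 : γb (act (Mu bA M fM (cc j q)⁻¹) (x q) i) = x q i := h3
      rw [h4, hγ'x]
    have hδR : IH.Rel r₀ vv₀ δ (extW Y₁ (m + 2)) := by
      have h1 := IH.Rel.mul r₀ vv₀ hγ' hδ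
      rw [inv_mul_cancel_right] at h1
      exact h1
    have hδξ : ∀ v, δ (ξ v) = ξ v := by
      intro v
      have hwξ : γb (ξ v) = ξ v := hXξ v
      change γ' (γb ((γ0 j).symm (ξ v))) = ξ v
      have h1 : (γ0 j).symm (ξ v) = ξ v := by
        rw [AlgEquiv.symm_apply_eq, hγ0ξ]
      rw [h1, hwξ, hγ'ξ]
    obtain ⟨h1, h2, h3⟩ := hrestr δ Y₁ hδR
    have hY₁H : Y₁ ∈ H := ⟨δ, hfixZ (δ.restrictScalars M) hδx hδξ h2 h3, h1⟩
    refine ⟨X' * Y₁⁻¹, H.mul_mem hX'H (H.inv_mem hY₁H), ?_⟩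
    rw [map_mul, map_inv, hY₁, hg₁, map_mul, map_inv, hbh]
    have h4 : ∀ a b c : Abelianization G, a * (a * (b * c⁻¹) * b⁻¹)⁻¹ = c := by
      intro a b c
      rw [mul_assoc a, mul_comm b c⁻¹, mul_assoc, mul_inv_cancel, mul_one, mul_inv, inv_inv,
        mul_inv_cancel_left]
    exact h4 _ _ _
  have htop : H.map (bh G n) = ⊤ := by
    rw [eq_top_iff, ← hgen, Subgroup.closure_le]
    rintro _ ⟨b, rfl⟩
    exact hgenb b
  have hall2 : ∀ X : Wr G n, X ∈ H := by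
    intro X
    have h1 : bh G n X ∈ H.map (bh G n) := by
      rw [htop]
      exact Subgroup.mem_top _
    obtain ⟨X₁, hX₁, h2⟩ := h1
    have h3 : X * X₁⁻¹ ∈ H := hker _ (by rw [map_mul, map_inv, h2, mul_inv_cancel])
    have h4 := H.mul_mem h3 hX₁
    rw [inv_mul_cancel_right] at h4
    exact h4
  -- descent to `k`
  obtain ⟨ω, ω', hω⟩ := exists_dual k M
  have hdi := fun (σ : N →+* N) (ρ : M ≃ₐ[k] M) => desc_iff ω ω' hω Zs σ ρ
  refine ⟨_, inferInstance, desc ω Zs, r, vv, desc_basis ω ω' hω Zs hZ, hr, hv, fun σ hσ => ?_,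
    fun X => ?_, fun ρ => ?_⟩
  · -- automorphisms over `k(Z)`
    obtain ⟨ρ, hρ⟩ : ∃ ρ : M ≃ₐ[k] M, ∀ a : M, σ (algebraMap M N a) = algebraMap M N (ρ a) :=
      ⟨σ.restrictNormal M, fun a => (AlgEquiv.restrictNormal_commutes σ M a).symm⟩
    obtain ⟨h1, h2⟩ := (hdi (σ : N →+* N) ρ hρ).1 hσ
    have h3 : ∀ q, ∃ c : Aˣ, (σ : N →+* N) ∘ x q = act (Mu bA M fM c) (x (sq ρ q)) := by
      intro q
      refine UU_tors bA fM (σ : N →+* N) (x q) (x (sq ρ q)) (hdet _) (hdet _) ?_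
      funext i
      exact h2 q.1 (Sum.inl (q.2, i))
    choose c hc using h3
    obtain ⟨-, X, X', -, h5, -⟩ := hact σ ρ c hρ hc h1
      (fun q => h2 q.1 (Sum.inr (Sum.inl q.2)))
      (fun q i => h2 q.1 (Sum.inr (Sum.inr (q.2, i))))
    exact ⟨⟨X', ρ⟩, h5⟩
  · obtain ⟨γ, hγ, hX⟩ := hall2 X
    refine ⟨γ, ?_, (relS_one_iff φ r vv γ X).2 ⟨fun a => (γ.restrictScalars M).commutes a, hX⟩⟩
    exact (hdi (γ : N →+* N) 1 (fun a => (γ.restrictScalars M).commutes a)).2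
      ⟨hγ (Sum.inl ()), fun γ₁ j => by rw [one_mul]; exact hγ _⟩
  · have hZM : IsTranscendenceBasis M Zs := basis_down _ hZ
    let e : Unit ⊕ ((M ≃ₐ[k] M) × JJ) ≃ Unit ⊕ ((M ≃ₐ[k] M) × JJ) :=
      Equiv.sumCongr (Equiv.refl _) (Equiv.prodCongr (Equiv.mulLeft ρ) (Equiv.refl _))
    obtain ⟨σ, hσ, hσZ⟩ := exists_semi_auto (k := k) hZM (hZM.comp_equiv e) ρ
    refine ⟨σ, ?_, hσ⟩
    exact (hdi (σ : N →+* N) ρ hσ).2 ⟨hσZ (Sum.inl ()), fun γ₁ j => hσZ (Sum.inr (γ₁, j))⟩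

end twist

end Pool.Agent.W200.IJ
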