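import Mathlib
import Pool.Agent.H391R2.T4.Fin
import Pool.Agent.W200.IJ.CA

/-!
Symmetric fibre powers of embedding problems: reduction to wreath products with action.
-/

set_option autoImplicit false

namespace Pool.Agent.W200.IJ

open Pool.Agent.H391R2 (Wr)
open Pool.Agent.H391R2.T4 (EG RegSol SymEP symProj symMap symMap_surjective actS WeakSol SolOver
  SolDeg regSol_iff sym_degree finite_sym HilbField)

set_option linter.unusedSectionVars false

/-- All wreath products with action have regular solutions over `K(t)`. -/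
def RegWr (K : Type) [Field K] : Prop :=
  ∀ (L : Type) [Field L] [Algebra K L] [FiniteDimensional K L] [IsGalois K L] (G : Type)
    [Group G] [Finite G] (φ : (L ≃ₐ[K] L) →* MulAut G), ∃ n₀ : ℕ, ∀ n ≥ n₀, 3 ≤ n ∧
      RegSol K L (EG φ n) SemidirectProduct.rightHom

section sym

variable (K L E : Type) [Field K] [Field L] [Algebra K L]
    [FiniteDimensional K L] [IsGalois K L] [Group E] [Finite E]
    (α : E →* (L ≃ₐ[K] L))

theorem reg_sym (hR : RegWr K) (hw : WeakSol K L E α) :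
    ∃ n₀ : ℕ, ∀ n ≥ n₀, 3 ≤ n ∧ RegSol K L (SymEP α n) (symProj α n) := by
  obtain ⟨L', i1, i2, i3, i4, i5, i6, s, hs⟩ := hw
  obtain ⟨n₀, hn₀⟩ := hR L' α.ker (actS α s)
  refine ⟨n₀, fun n hn => ?_⟩
  obtain ⟨hn3, hreg⟩ := hn₀ n hn
  refine ⟨hn3, ?_⟩
  let res : (L' ≃ₐ[K] L') →* (L ≃ₐ[K] L) := AlgEquiv.restrictNormalHom L
  have hs' : ∀ ρ, α (s ρ) = res ρ := hs
  refine regSol_quot (symProj α n) SemidirectProduct.rightHom (symMap α res s hs' n)
    (symMap_surjective α res s hs' (AlgEquiv.restrictNormalHom_surjective L') n)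
    (fun g' => rfl) ?_ hreg
  intro ρ hρ
  have h1 : (s ρ)⁻¹ ∈ α.ker := by
    rw [MonoidHom.mem_ker, map_inv, hs, hρ, inv_one]
  refine ⟨⟨⟨fun i => ⟨_, h1⟩, 1⟩, ρ⟩, ?_, rfl⟩
  apply Subtype.ext
  apply Prod.ext
  · apply SemidirectProduct.ext
    · funext i
      change (s ρ)⁻¹ * s ρ = 1
      rw [inv_mul_cancel]
    · rfl
  · exact hρ

theorem reg_fin_of (hR : RegWr K) (hw : WeakSol K L E α) : ∃ n₀ : ℕ, ∀ n ≥ n₀,
    SolOver K L (SymEP α n) (symProj α n) (RatFunc K) True ∧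
    SolDeg K L E α (RatFunc K) n True := by
  obtain ⟨n₀, hn₀⟩ := reg_sym K L E α hR hw
  refine ⟨n₀, fun n hn => ?_⟩
  obtain ⟨hn3, hreg⟩ := hn₀ n hn
  have h1 := (regSol_iff K L (SymEP α n) (symProj α n)).1 hreg
  refine ⟨h1, ?_⟩
  obtain ⟨M, a1, a2, a3, ψ, a4, a5, h2⟩ := sym_degree α n ⟨0, by omega⟩ True h1
  exact ⟨M, a1, a2, a3, ψ, ⟨0, by omega⟩, a4, a5, h2⟩

theorem hil_fin_of (hR : RegWr K) (hK : HilbField K) (hw : WeakSol K L E α) :
    ∃ n₀ : ℕ, ∀ n ≥ n₀,
    SolOver K L (SymEP α n) (symProj α n) K False ∧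
    SolDeg K L E α K n False := by
  obtain ⟨n₀, hn₀⟩ := reg_sym K L E α hR hw
  refine ⟨n₀, fun n hn => ?_⟩
  obtain ⟨hn3, F, i1, i2, i3, i4, i5, i6, i7, i8, γ, hγ, -⟩ := hn₀ n hn
  obtain ⟨F', j1, j2, j3, j4, j5, j6, γ', hγ'⟩ := H33.hilbert_spec K hK L (SymEP α n)
    (symProj α n) ⟨F, i1, i2, i3, i4, i5, i6, i7, i8, γ, hγ⟩
  have h1 : SolOver K L (SymEP α n) (symProj α n) K False := by
    refine ⟨F', j1, j2, j3, j2, inferInstance, j4, j5, j6, γ', ?_, fun h => h.elim⟩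
    intro σ x
    rw [hγ', AlgEquiv.restrictNormal_commutes]
  refine ⟨h1, ?_⟩
  obtain ⟨M, a1, a2, a3, ψ, a4, a5, h2⟩ := sym_degree α n ⟨0, by omega⟩ False h1
  exact ⟨M, a1, a2, a3, ψ, ⟨0, by omega⟩, a4, a5, h2⟩

end sym

/-- Hilbertian fields are infinite. -/
theorem infinite_of_hilb (K : Type) [Field K] (hK : HilbField K) : Infinite K := by
  by_contra hfin
  have hf : Finite K := not_infinite_iff_finite.1 hfin
  cases nonempty_fintype K
  obtain ⟨a, ha, -⟩ := hK Polynomial.X Polynomial.monic_X Polynomial.irreducible_X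
    (by rw [Polynomial.map_X]; exact Polynomial.separable_X)
    (∏ b : K, (Polynomial.X - Polynomial.C b))
    (Finset.prod_ne_zero_iff.2 fun b _ => Polynomial.X_sub_C_ne_zero b)
  apply ha
  rw [Polynomial.eval_prod]
  exact Finset.prod_eq_zero (Finset.mem_univ a) (by simp)

theorem regWr_zero (K : Type) [Field K] [CharZero K] : RegWr K :=
  fun L _ _ _ _ G _ _ φ => H391R2.T4.reg_wreath K L G φ

theorem regWr_inf (K : Type) [Field K] [Infinite K] : RegWr K := by
  obtain ⟨p, hp⟩ := CharP.exists K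
  rcases CharP.char_is_prime_or_zero K p with h | h
  · have : Fact p.Prime := ⟨h⟩
    exact fun L _ _ _ _ G _ _ φ => reg_wreath_inf p K L G φ
  · subst h
    have : CharZero K := CharP.charP_to_charZero K
    exact regWr_zero K

/-- All Hilbertian fields. -/
theorem hil_all (K L E : Type) [Field K] [Field L] [Algebra K L]
    [FiniteDimensional K L] [IsGalois K L] [Group E] [Finite E]
    (α : E →* (L ≃ₐ[K] L)) (hK : HilbField K) (hw : WeakSol K L E α) :
    ∃ n₀ : ℕ, ∀ n ≥ n₀,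
    SolOver K L (SymEP α n) (symProj α n) K False ∧
    SolDeg K L E α K n False := by
  have : Infinite K := infinite_of_hilb K hK
  exact hil_fin_of K L E α (regWr_inf K) hK hw

end Pool.Agent.W200.IJ
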